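import Pool.Agent.X135.TT.Graph

/-!
Covering of the torus by the plane; geometry of the torus.
-/

set_option autoImplicit false

namespace Pool.Agent.X135.TT

open H974 Finset MeasureTheory

theorem eq_of_dvd_lt {n a b : ℤ} (h : n ∣ a - b) (ha : 0 ≤ a ∧ a < n) (hb : 0 ≤ b ∧ b < n) :
    a = b := by
  have := Int.eq_zero_of_abs_lt_dvd h (by rw [abs_lt]; omega)
  omega

theorem not_dvd_one {n : ℕ} (hn : 3 ≤ n) {a b : ℤ} (h1 : (n:ℤ) ∣ a) (h2 : (n:ℤ) ∣ b)
    (h : a - b = 1 ∨ a - b = 2 ∨ b - a = 1 ∨ b - a = 2) : False := by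
  have h3 : (n:ℤ) ∣ a - b := dvd_sub h1 h2
  have h4 : (n:ℤ) ∣ b - a := dvd_sub h2 h1
  rcases h with h | h | h | h
  · rw [h] at h3; have := Int.le_of_dvd (by norm_num) h3; omega
  · rw [h] at h3; have := Int.le_of_dvd (by norm_num) h3; omega
  · rw [h] at h4; have := Int.le_of_dvd (by norm_num) h4; omega
  · rw [h] at h4; have := Int.le_of_dvd (by norm_num) h4; omega

theorem tau_injOn {N m : ℕ} (hN : 3 ≤ N) (hm : 3 ≤ m) (c : ZMod N × ZMod m) :
    Set.InjOn (tau hN hm c) (FD N m : Finset Edg) := by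
  rintro ⟨x, y, b⟩ he ⟨x', y', b'⟩ he' h
  rw [mem_coe, mem_FD] at he he'
  have h1 : s(cov c (src (x, y, b)), cov c (tgt (x, y, b))) =
      s(cov c (src (x', y', b')), cov c (tgt (x', y', b'))) := congrArg Subtype.val h
  rw [Sym2.eq_iff] at h1
  have same : cov c (x, y) = cov c (x', y') → x = x' ∧ y = y' := by
    intro h2
    rw [cov_eq_iff] at h2
    exact ⟨eq_of_dvd_lt h2.1 he.1 he'.1, eq_of_dvd_lt h2.2 he.2 he'.2⟩
  cases b <;> cases b'
  · simp only [src_mk, tgt_false] at h1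
    rcases h1 with ⟨h2, -⟩ | ⟨h2, h3⟩
    · obtain ⟨rfl, rfl⟩ := same h2; rfl
    · exfalso
      rw [cov_eq_iff] at h2 h3
      exact not_dvd_one hm h3.2 h2.2 (by right; left; simp only; ring)
  · simp only [src_mk, tgt_false, tgt_true] at h1
    exfalso
    rcases h1 with ⟨h2, h3⟩ | ⟨h2, h3⟩
    · rw [cov_eq_iff] at h2 h3
      exact not_dvd_one hm h3.2 h2.2 (by left; simp only; ring)
    · rw [cov_eq_iff] at h2 h3
      exact not_dvd_one hm h3.2 h2.2 (by left; simp only; ring)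
  · simp only [src_mk, tgt_false, tgt_true] at h1
    exfalso
    rcases h1 with ⟨h2, h3⟩ | ⟨h2, h3⟩
    · rw [cov_eq_iff] at h2 h3
      exact not_dvd_one hN h3.1 h2.1 (by left; simp only; ring)
    · rw [cov_eq_iff] at h2 h3
      exact not_dvd_one hN h3.1 h2.1 (by left; simp only; ring)
  · simp only [src_mk, tgt_true] at h1
    rcases h1 with ⟨h2, -⟩ | ⟨h2, h3⟩
    · obtain ⟨rfl, rfl⟩ := same h2; rfl
    · exfalso
      rw [cov_eq_iff] at h2 h3
      exact not_dvd_one hN h3.1 h2.1 (by right; left; simp only; ring)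

theorem tau_mod {N m : ℕ} (hN : 3 ≤ N) (hm : 3 ≤ m) (c : ZMod N × ZMod m) (x y : ℤ) (b : Bool) :
    tau hN hm c (x % N, y % m, b) = tau hN hm c (x, y, b) := by
  apply Subtype.ext
  cases b
  · show s(cov c (x % N, y % m), cov c (x % N, y % m + 1)) = s(cov c (x, y), cov c (x, y + 1))
    rw [cov_up, cov_up, cov_mod]
  · show s(cov c (x % N, y % m), cov c (x % N + 1, y % m)) = s(cov c (x, y), cov c (x + 1, y))
    rw [cov_right, cov_right, cov_mod]

/-- The graph of the kept edges. -/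
def oG {V : Type} (G : SimpleGraph V) (ω : G.edgeSet → Bool) : SimpleGraph V :=
  SimpleGraph.fromEdgeSet {e | ∃ h : e ∈ G.edgeSet, ω ⟨e, h⟩ = true}

theorem oG_adj {V : Type} {G : SimpleGraph V} {ω : G.edgeSet → Bool} {u v : V} :
    (oG G ω).Adj u v ↔ ∃ h : s(u, v) ∈ G.edgeSet, ω ⟨s(u, v), h⟩ = true := by
  unfold oG
  rw [SimpleGraph.fromEdgeSet_adj]
  constructor
  · exact fun h => h.1
  · rintro ⟨h, hω⟩
    exact ⟨⟨h, hω⟩, ((SimpleGraph.mem_edgeSet _).mp h).ne⟩

/-- The kept edges, lifted to the plane. -/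
def opn {N m : ℕ} (hN : 3 ≤ N) (hm : 3 ≤ m) (c : ZMod N × ZMod m)
    (ω : (torus N m).edgeSet → Bool) : Set Edg := {e | ω (tau hN hm c e) = true}

theorem per_FF {N m : ℕ} (hN : 3 ≤ N) (hm : 3 ≤ m) (c : ZMod N × ZMod m)
    (ω : (torus N m).edgeSet → Bool) :
    per N m (FF (tau hN hm c) (FD N m) ω) = opn hN hm c ω := by
  ext ⟨x, y, b⟩
  show ((x % N, y % m, b) : Edg) ∈ FF (tau hN hm c) (FD N m) ω ↔ ω (tau hN hm c (x, y, b)) = true
  rw [mem_FF, tau_mod, mem_FD]
  have hN0 : (0:ℤ) < N := by exact_mod_cast (by omega : 0 < N)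
  have hm0 : (0:ℤ) < m := by exact_mod_cast (by omega : 0 < m)
  constructor
  · exact fun h => h.2
  · exact fun h => ⟨⟨⟨Int.emod_nonneg _ hN0.ne', Int.emod_lt_of_pos _ hN0⟩,
      Int.emod_nonneg _ hm0.ne', Int.emod_lt_of_pos _ hm0⟩, h⟩

theorem push_reach {N m : ℕ} (hN : 3 ≤ N) (hm : 3 ≤ m) (c : ZMod N × ZMod m)
    {ω : (torus N m).edgeSet → Bool} {u v : Vtx} (h : Reach (opn hN hm c ω) u v) :
    (oG (torus N m) ω).Reachable (cov c u) (cov c v) := by
  induction h with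
  | refl => exact SimpleGraph.Reachable.refl _
  | @tail w w' _ hs ih =>
    refine ih.trans (SimpleGraph.Adj.reachable ?_)
    obtain ⟨e, he, hc⟩ := hs
    have h1 : (oG (torus N m) ω).Adj (cov c (src e)) (cov c (tgt e)) :=
      oG_adj.mpr ⟨(tau hN hm c e).2, he⟩
    rcases hc with ⟨h2, h3⟩ | ⟨h2, h3⟩
    · rw [← h2, ← h3]; exact h1
    · rw [← h2, ← h3]; exact h1.symm

theorem cov_surj {N m : ℕ} (hN : 0 < N) (hm : 0 < m) (c w : ZMod N × ZMod m) :
    ∃ u : Vtx, cov c u = w := by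
  have : NeZero N := ⟨by omega⟩
  have : NeZero m := ⟨by omega⟩
  refine ⟨(((w - c).1.val : ℤ), ((w - c).2.val : ℤ)), ?_⟩
  unfold cov
  ext <;> simp

theorem lift_adj {N m : ℕ} (hN : 3 ≤ N) (hm : 3 ≤ m) (c : ZMod N × ZMod m)
    {ω : (torus N m).edgeSet → Bool} {u : Vtx} {w : ZMod N × ZMod m}
    (h : (oG (torus N m) ω).Adj (cov c u) w) :
    ∃ v, cov c v = w ∧ Reach (opn hN hm c ω) u v := by
  obtain ⟨hE, hω⟩ := oG_adj.mp h
  have hadj := (torus_adj hN hm).mp ((SimpleGraph.mem_edgeSet _).mp hE)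
  obtain ⟨x, y⟩ := u
  rcases hadj with (h1 | h1) | (h1 | h1)
  · refine ⟨(x + 1, y), by rw [cov_right, h1], Adj.reach ⟨(x, y, true), ?_, Or.inl ⟨rfl, rfl⟩⟩⟩
    have e : tau hN hm c (x, y, true) = ⟨s(cov c (x, y), w), hE⟩ := by
      apply Subtype.ext
      show s(cov c (x, y), cov c (x + 1, y)) = s(cov c (x, y), w)
      rw [cov_right, h1]
    show ω (tau hN hm c (x, y, true)) = true
    rw [e]; exact hω
  · refine ⟨(x, y + 1), by rw [cov_up, h1], Adj.reach ⟨(x, y, false), ?_, Or.inl ⟨rfl, rfl⟩⟩⟩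
    have e : tau hN hm c (x, y, false) = ⟨s(cov c (x, y), w), hE⟩ := by
      apply Subtype.ext
      show s(cov c (x, y), cov c (x, y + 1)) = s(cov c (x, y), w)
      rw [cov_up, h1]
    show ω (tau hN hm c (x, y, false)) = true
    rw [e]; exact hω
  · have h2 : cov c (x - 1, y) = w := by
      have := cov_right c (x - 1) y
      rw [sub_add_cancel, h1] at this
      exact (add_right_cancel this).symm
    refine ⟨(x - 1, y), h2, Adj.reach ⟨(x - 1, y, true), ?_, Or.inr ⟨rfl, ?_⟩⟩⟩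
    · have e : tau hN hm c (x - 1, y, true) = ⟨s(cov c (x, y), w), hE⟩ := by
        apply Subtype.ext
        show s(cov c (x - 1, y), cov c (x - 1 + 1, y)) = s(cov c (x, y), w)
        rw [sub_add_cancel, h2, Sym2.eq_swap]
      show ω (tau hN hm c (x - 1, y, true)) = true
      rw [e]; exact hω
    · rw [tgt_true, sub_add_cancel]
  · have h2 : cov c (x, y - 1) = w := by
      have := cov_up c x (y - 1)
      rw [sub_add_cancel, h1] at this
      exact (add_right_cancel this).symm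
    refine ⟨(x, y - 1), h2, Adj.reach ⟨(x, y - 1, false), ?_, Or.inr ⟨rfl, ?_⟩⟩⟩
    · have e : tau hN hm c (x, y - 1, false) = ⟨s(cov c (x, y), w), hE⟩ := by
        apply Subtype.ext
        show s(cov c (x, y - 1), cov c (x, y - 1 + 1)) = s(cov c (x, y), w)
        rw [sub_add_cancel, h2, Sym2.eq_swap]
      show ω (tau hN hm c (x, y - 1, false)) = true
      rw [e]; exact hω
    · rw [tgt_false, sub_add_cancel]

theorem lift_reach {N m : ℕ} (hN : 3 ≤ N) (hm : 3 ≤ m) (c : ZMod N × ZMod m)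
    {ω : (torus N m).edgeSet → Bool} {u : Vtx} {w : ZMod N × ZMod m}
    (h : (oG (torus N m) ω).Reachable (cov c u) w) :
    ∃ v, cov c v = w ∧ Reach (opn hN hm c ω) u v := by
  rw [SimpleGraph.reachable_iff_reflTransGen] at h
  induction h with
  | refl => exact ⟨u, rfl, Reach.refl _ _⟩
  | @tail w w' _ hs ih =>
    obtain ⟨v, hv, hr⟩ := ih
    rw [← hv] at hs
    obtain ⟨v', hv', hr'⟩ := lift_adj hN hm c hs
    exact ⟨v', hv', hr.trans hr'⟩

/-! ### Geometry of the torus -/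

theorem walk_h {N m : ℕ} (hN : 3 ≤ N) (hm : 3 ≤ m) (n : ℕ) (w : ZMod N × ZMod m) :
    ∃ p : (torus N m).Walk w (w + ((n : ZMod N), 0)), p.length = n := by
  induction n with
  | zero =>
    have e : w + (((0:ℕ) : ZMod N), (0 : ZMod m)) = w := by simp
    rw [e]
    exact ⟨SimpleGraph.Walk.nil, rfl⟩
  | succ n ih =>
    obtain ⟨p, hp⟩ := ih
    have hadj : (torus N m).Adj (w + ((n : ZMod N), 0)) (w + (((n + 1 : ℕ) : ZMod N), 0)) := by
      rw [torus_adj hN hm]
      left; left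
      rw [add_assoc]
      congr 1
      simp
    refine ⟨p.append (SimpleGraph.Walk.cons hadj SimpleGraph.Walk.nil), ?_⟩
    rw [SimpleGraph.Walk.length_append, hp]
    rfl

theorem walk_v {N m : ℕ} (hN : 3 ≤ N) (hm : 3 ≤ m) (n : ℕ) (w : ZMod N × ZMod m) :
    ∃ p : (torus N m).Walk w (w + (0, (n : ZMod m))), p.length = n := by
  induction n with
  | zero =>
    have e : w + ((0 : ZMod N), ((0:ℕ) : ZMod m)) = w := by simp
    rw [e]
    exact ⟨SimpleGraph.Walk.nil, rfl⟩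
  | succ n ih =>
    obtain ⟨p, hp⟩ := ih
    have hadj : (torus N m).Adj (w + (0, (n : ZMod m))) (w + (0, ((n + 1 : ℕ) : ZMod m))) := by
      rw [torus_adj hN hm]
      left; right
      rw [add_assoc]
      congr 1
      simp
    refine ⟨p.append (SimpleGraph.Walk.cons hadj SimpleGraph.Walk.nil), ?_⟩
    rw [SimpleGraph.Walk.length_append, hp]
    rfl

theorem walk_h' {N m : ℕ} (hN : 3 ≤ N) (hm : 3 ≤ m) (a : ℤ) (w : ZMod N × ZMod m) :
    ∃ p : (torus N m).Walk w (w + ((a : ZMod N), 0)), p.length = a.natAbs := by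
  rcases le_total 0 a with h | h
  · obtain ⟨p, hp⟩ := walk_h hN hm a.natAbs w
    have e : ((a.natAbs : ℕ) : ZMod N) = (a : ZMod N) := by
      have : ((a.natAbs : ℕ) : ℤ) = a := by omega
      calc ((a.natAbs : ℕ) : ZMod N) = (((a.natAbs : ℕ) : ℤ) : ZMod N) :=
            (Int.cast_natCast _).symm
        _ = (a : ZMod N) := by rw [this]
    obtain ⟨p, hp⟩ := walk_h hN hm a.natAbs w
    rw [← e]
    exact ⟨p, hp⟩
  · obtain ⟨p, hp⟩ := walk_h hN hm a.natAbs (w + ((a : ZMod N), 0))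
    have e : w + ((a : ZMod N), (0 : ZMod m)) + (((a.natAbs : ℕ) : ZMod N), 0) = w := by
      have h1 : ((a.natAbs : ℕ) : ZMod N) = -(a : ZMod N) := by
        have : ((a.natAbs : ℕ) : ℤ) = -a := by omega
        calc ((a.natAbs : ℕ) : ZMod N) = (((a.natAbs : ℕ) : ℤ) : ZMod N) :=
              (Int.cast_natCast _).symm
          _ = ((-a : ℤ) : ZMod N) := by rw [this]
          _ = -(a : ZMod N) := Int.cast_neg a
      rw [h1]
      ext <;> simp
    have key : ∀ z, z = w → (∃ p : (torus N m).Walk (w + ((a : ZMod N), 0)) z, p.length = a.natAbs) →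
        ∃ p : (torus N m).Walk w (w + ((a : ZMod N), 0)), p.length = a.natAbs := by
      rintro z rfl ⟨p, hp⟩
      exact ⟨p.reverse, by rw [SimpleGraph.Walk.length_reverse]; exact hp⟩
    exact key _ e ⟨p, hp⟩

theorem walk_v' {N m : ℕ} (hN : 3 ≤ N) (hm : 3 ≤ m) (a : ℤ) (w : ZMod N × ZMod m) :
    ∃ p : (torus N m).Walk w (w + (0, (a : ZMod m))), p.length = a.natAbs := by
  rcases le_total 0 a with h | h
  · have e : ((a.natAbs : ℕ) : ZMod m) = (a : ZMod m) := by
      have : ((a.natAbs : ℕ) : ℤ) = a := by omega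
      rw [← this]; push_cast; simp
    obtain ⟨p, hp⟩ := walk_v hN hm a.natAbs w
    rw [← e]
    exact ⟨p, hp⟩
  · obtain ⟨p, hp⟩ := walk_v hN hm a.natAbs (w + (0, (a : ZMod m)))
    have e : w + ((0 : ZMod N), (a : ZMod m)) + (0, ((a.natAbs : ℕ) : ZMod m)) = w := by
      have h1 : ((a.natAbs : ℕ) : ZMod m) = -(a : ZMod m) := by
        have : ((a.natAbs : ℕ) : ℤ) = -a := by omega
        calc ((a.natAbs : ℕ) : ZMod m) = (((a.natAbs : ℕ) : ℤ) : ZMod m) :=
              (Int.cast_natCast _).symm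
          _ = ((-a : ℤ) : ZMod m) := by rw [this]
          _ = -(a : ZMod m) := Int.cast_neg a
      rw [h1]
      ext <;> simp
    have key : ∀ z, z = w → (∃ p : (torus N m).Walk (w + (0, (a : ZMod m))) z, p.length = a.natAbs) →
        ∃ p : (torus N m).Walk w (w + (0, (a : ZMod m))), p.length = a.natAbs := by
      rintro z rfl ⟨p, hp⟩
      exact ⟨p.reverse, by rw [SimpleGraph.Walk.length_reverse]; exact hp⟩
    exact key _ e ⟨p, hp⟩

theorem exists_walk {N m : ℕ} (hN : 3 ≤ N) (hm : 3 ≤ m) (w w' : ZMod N × ZMod m) :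
    ∃ p : (torus N m).Walk w w', p.length ≤ N / 2 + m / 2 := by
  have : NeZero N := ⟨by omega⟩
  have : NeZero m := ⟨by omega⟩
  obtain ⟨p, hp⟩ := walk_h' hN hm (w'.1 - w.1).valMinAbs w
  obtain ⟨q, hq⟩ := walk_v' hN hm (w'.2 - w.2).valMinAbs
    (w + (((w'.1 - w.1).valMinAbs : ZMod N), 0))
  have e : w + (((w'.1 - w.1).valMinAbs : ZMod N), (0 : ZMod m)) +
      (0, ((w'.2 - w.2).valMinAbs : ZMod m)) = w' := by
    rw [ZMod.coe_valMinAbs, ZMod.coe_valMinAbs]
    ext <;> simp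
  have key : ∀ z, z = w' → (∃ p : (torus N m).Walk w z, p.length ≤ N / 2 + m / 2) →
      ∃ p : (torus N m).Walk w w', p.length ≤ N / 2 + m / 2 := by
    rintro z rfl h
    exact h
  refine key _ e ⟨p.append q, ?_⟩
  rw [SimpleGraph.Walk.length_append, hp, hq]
  exact add_le_add (ZMod.natAbs_valMinAbs_le _) (ZMod.natAbs_valMinAbs_le _)

theorem torus_connected {N m : ℕ} (hN : 3 ≤ N) (hm : 3 ≤ m) : (torus N m).Connected := by
  have : Nonempty (ZMod N × ZMod m) := ⟨0⟩
  refine ⟨fun u v => ?_⟩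
  obtain ⟨p, -⟩ := exists_walk hN hm u v
  exact ⟨p⟩

theorem torus_diam {N m : ℕ} (hN : 3 ≤ N) (hm : 3 ≤ m) : (torus N m).diam ≤ N / 2 + m / 2 := by
  have : Nonempty (ZMod N × ZMod m) := ⟨0⟩
  obtain ⟨u, v, h⟩ := (torus N m).exists_dist_eq_diam
  obtain ⟨p, hp⟩ := exists_walk hN hm u v
  rw [← h]
  exact (SimpleGraph.dist_le p).trans hp

theorem walk_disp {N m : ℕ} (hN : 3 ≤ N) (hm : 3 ≤ m) {u v : ZMod N × ZMod m}
    (p : (torus N m).Walk u v) : ∃ a : ℤ, a.natAbs ≤ p.length ∧ v.1 = u.1 + (a : ZMod N) := by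
  induction p with
  | nil => exact ⟨0, by simp, by simp⟩
  | @cons u w v hadj p ih =>
    obtain ⟨a, ha, hv⟩ := ih
    rw [torus_adj hN hm] at hadj
    rw [SimpleGraph.Walk.length_cons]
    rcases hadj with (h | h) | (h | h)
    · refine ⟨a + 1, by omega, ?_⟩
      rw [hv, h]; push_cast; simp; ring
    · refine ⟨a, by omega, ?_⟩
      rw [hv, h]; simp
    · refine ⟨a - 1, by omega, ?_⟩
      rw [hv, h]; push_cast; simp
    · refine ⟨a, by omega, ?_⟩
      rw [hv, h]; simp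

theorem torus_dist {N m : ℕ} (hN : 3 ≤ N) (hm : 3 ≤ m) {u v : ZMod N × ZMod m} {D : ℕ}
    (hD : 2 * D ≤ N) (h : v.1 = u.1 + (D : ZMod N)) : D ≤ (torus N m).dist u v := by
  obtain ⟨p, hp⟩ := (torus_connected hN hm).exists_walk_length_eq_dist u v
  obtain ⟨a, ha, hv⟩ := walk_disp hN hm p
  rw [← hp]
  refine le_trans ?_ ha
  rw [h, add_right_inj] at hv
  have h1 : ((a - D : ℤ) : ZMod N) = 0 := by push_cast; rw [hv, sub_self]
  rw [ZMod.intCast_zmod_eq_zero_iff_dvd] at h1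
  obtain ⟨t, ht⟩ := h1
  have hN0 : (0:ℤ) < N := by exact_mod_cast (by omega : 0 < N)
  rcases lt_trichotomy t 0 with h2 | h2 | h2
  · have h3 : (N:ℤ) * t ≤ N * (-1) := mul_le_mul_of_nonneg_left (by omega) hN0.le
    omega
  · rw [h2, mul_zero] at ht; omega
  · have h3 : (N:ℤ) * 1 ≤ N * t := mul_le_mul_of_nonneg_left (by omega) hN0.le
    omega

theorem torus_transitive {N m : ℕ} (hN : 3 ≤ N) (hm : 3 ≤ m) (u v : ZMod N × ZMod m) :
    ∃ φ : torus N m ≃g torus N m, φ u = v := by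
  refine ⟨⟨Equiv.addRight (v - u), ?_⟩, ?_⟩
  · intro a b
    rw [torus_adj hN hm, torus_adj hN hm]
    simp only [Equiv.coe_addRight]
    have e : ∀ x y z : ZMod N × ZMod m, y + (v - u) = x + (v - u) + z ↔ y = x + z := by
      intro x y z
      rw [add_right_comm x (v - u) z, add_left_inj]
    rw [e, e, e, e]
  · show u + (v - u) = v
    abel

theorem torus_regular {N m : ℕ} (hN : 3 ≤ N) (hm : 3 ≤ m) (v : ZMod N × ZMod m) :
    ((torus N m).neighborSet v).ncard = 4 := by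
  have h1 := one_ne hN
  have h2 := two_ne hN
  have h3 := one_ne hm
  have h4 := two_ne hm
  have e : (torus N m).neighborSet v =
      ({v + (1, 0), v + (0, 1), v + (-1, 0), v + (0, -1)} : Set (ZMod N × ZMod m)) := by
    ext w
    rw [SimpleGraph.mem_neighborSet, torus_adj hN hm]
    simp only [Set.mem_insert_iff, Set.mem_singleton_iff]
    have e1 : v = w + (1, 0) ↔ w = v + (-1, 0) := by
      constructor
      · rintro rfl; ext <;> simp
      · rintro rfl; ext <;> simp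
    have e2 : v = w + (0, 1) ↔ w = v + (0, -1) := by
      constructor
      · rintro rfl; ext <;> simp
      · rintro rfl; ext <;> simp
    rw [e1, e2]
    tauto
  rw [e]
  have n1 : (1 : ZMod N) ≠ -1 := by
    intro h
    apply h2
    nth_rewrite 1 [h]
    simp
  have n2 : (1 : ZMod m) ≠ -1 := by
    intro h
    apply h4
    nth_rewrite 1 [h]
    simp
  rw [Set.ncard_insert_of_notMem, Set.ncard_insert_of_notMem, Set.ncard_pair]
  · intro h
    rw [add_right_inj, Prod.mk.injEq] at h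
    exact h1 (by simpa using h.1)
  · simp only [Set.mem_insert_iff, Set.mem_singleton_iff, add_right_inj, Prod.mk.injEq]
    rintro (h | h)
    · exact h3 h.2
    · exact n2 h.2
  · simp only [Set.mem_insert_iff, Set.mem_singleton_iff, add_right_inj, Prod.mk.injEq]
    rintro (h | h | h)
    · exact h1 h.1
    · exact n1 h.1
    · exact h1 h.1

end Pool.Agent.X135.TT
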