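import Pool.Agent.X135.TT.Rect

/-!
Choice of the parameters and numerical estimates.
-/

set_option autoImplicit false

namespace Pool.Agent.X135.TT

open H974 Finset

/-- The percolation parameter. -/
noncomputable def p0 : ℝ := 1 - 1 / 2 ^ 32

theorem p0_nonneg : 0 ≤ p0 := by unfold p0; norm_num
theorem p0_le : p0 ≤ 1 := by unfold p0; norm_num
theorem p0_lt : p0 < 1 := by unfold p0; norm_num
theorem p0_half : 1 / 2 ≤ p0 := by unfold p0; norm_num

/-- The scale. -/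
def Mk (k : ℕ) : ℕ := 2 ^ (2 * k + 1) * 2

/-- The short side of the torus. -/
def mk (k : ℕ) : ℕ := 8 * Mk k

/-- The overlap. -/
def sk (k : ℕ) : ℕ := mk k * 2 ^ (mk k)

theorem Mk_ge (k : ℕ) : 4 ≤ Mk k := by
  unfold Mk
  have : 2 ^ 1 ≤ 2 ^ (2 * k + 1) := Nat.pow_le_pow_right (by norm_num) (by omega)
  omega

theorem mk_ge (k : ℕ) : 32 ≤ mk k := by
  have := Mk_ge k
  unfold mk; omega

theorem mk_gt (k : ℕ) : 32 * k < mk k := by
  unfold mk Mk
  have h1 : k < 2 ^ k := Nat.lt_two_pow_self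
  have h2 : 2 ^ k ≤ 2 ^ (2 * k) := Nat.pow_le_pow_right (by norm_num) (by omega)
  have h3 : 2 ^ (2 * k + 1) = 2 * 2 ^ (2 * k) := by ring
  omega

theorem eps2 : 25 * eps p0 2 ≤ 1 / 2 ^ 24 := by
  have h := eps_two p0_nonneg p0_le
  have e : 1 - p0 = 1 / 2 ^ 32 := by unfold p0; ring
  rw [e] at h
  calc 25 * eps p0 2 ≤ 25 * (4 * (1 / 2 ^ 32)) := by linarith
    _ ≤ 1 / 2 ^ 24 := by norm_num

theorem epsH (k : ℕ) : 25 * eps p0 (2 * Mk k) ≤ (1 / 8) ^ (mk k) := by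
  have h := eps_pow' p0_nonneg p0_le (2 * k + 2)
  have e : 2 ^ (2 * k + 2) * 2 = 2 * Mk k := by unfold Mk; ring
  rw [e] at h
  refine h.trans ?_
  have h0 : 0 ≤ 25 * eps p0 2 := by
    have := eps_nonneg p0_nonneg p0_le 2
    positivity
  refine (pow_le_pow_left₀ h0 eps2 _).trans ?_
  have e2 : mk k = 8 * 2 ^ (2 * k + 2) := by unfold mk Mk; ring
  rw [e2, pow_mul]
  apply le_of_eq
  congr 1
  norm_num

/-- Failure of the crossing of a long rectangle. -/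
theorem fail_le (k : ℕ) {L : ℤ} (j : ℕ) (hL : 0 < L) (hLj : L ≤ (j + 2) * (2 * Mk k : ℕ)) :
    1 - hh p0 L (2 * Mk k - 1) ≤ (2 * j + 1) / 25 * (1 / 8) ^ (mk k) := by
  have hM := Mk_ge k
  have h1 := long_strip p0_nonneg p0_le (N := 2 * Mk k) (by omega) j
  have h2 : hh p0 ((j + 2) * (2 * Mk k : ℕ)) ((2 * Mk k : ℕ) - 1) ≤
      hh p0 L ((2 * Mk k : ℕ) - 1) :=
    hh_mono p0_nonneg p0_le hL hLj le_rfl
  have h3 := epsH k
  push_cast at h1 h2
  have h4 : ((2:ℝ) * j + 1) * eps p0 (2 * Mk k) ≤ (2 * j + 1) * ((1 / 8) ^ (mk k) / 25) := by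
    apply mul_le_mul_of_nonneg_left _ (by positivity)
    linarith
  have e : ((2:ℝ) * j + 1) * ((1 / 8) ^ (mk k) / 25) = (2 * j + 1) / 25 * (1 / 8) ^ (mk k) := by
    ring
  rw [e] at h4
  linarith

theorem exists_N (k : ℕ) : ∃ N : ℕ, 1 / 2 < bb p0 (mk k) N ∧
    ∀ L : ℕ, L < N → bb p0 (mk k) L ≤ 1 / 2 := by
  classical
  have hm : 0 < mk k := by have := mk_ge k; omega
  have hex : ∃ L : ℕ, 1 / 2 < bb p0 (mk k) L := by
    have hq : 0 < (1 - p0) ^ (mk k) := by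
      apply pow_pos
      have := p0_lt
      linarith
    have hq1 : (1 - p0) ^ (mk k) ≤ 1 := by
      apply pow_le_one₀
      · have := p0_le; linarith
      · have := p0_nonneg; linarith
    obtain ⟨L, hL⟩ := exists_pow_lt_of_lt_one (show (0:ℝ) < 1/2 by norm_num)
      (show 1 - (1 - p0) ^ (mk k) < 1 by linarith)
    refine ⟨L, ?_⟩
    have := aa_decay p0_nonneg p0_le hm L
    unfold bb
    linarith
  refine ⟨Nat.find hex, Nat.find_spec hex, ?_⟩
  intro L hL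
  have := Nat.find_min hex hL
  linarith

/-- The long side of the torus. -/
noncomputable def Nk (k : ℕ) : ℕ := Classical.choose (exists_N k)

theorem Nk_spec (k : ℕ) : 1 / 2 < bb p0 (mk k) (Nk k) := (Classical.choose_spec (exists_N k)).1

theorem Nk_lt (k : ℕ) {L : ℤ} (h0 : 0 ≤ L) (hL : L < Nk k) : bb p0 (mk k) L ≤ 1 / 2 := by
  have := (Classical.choose_spec (exists_N k)).2 L.toNat (by
    have : L < Nk k := hL
    unfold Nk at this
    omega)
  have e : ((L.toNat : ℕ) : ℤ) = L := by omega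
  rwa [e] at this

theorem Nk_big (k : ℕ) : 8 ^ (mk k) * (2 * Mk k) < Nk k := by
  by_contra hcon
  push Not at hcon
  have hM := Mk_ge k
  have hm := mk_ge k
  have h1 := Nk_spec k
  have hN0 : 0 < Nk k := by
    by_contra h0
    have h00 : Nk k = 0 := by omega
    rw [h00, Nat.cast_zero] at h1
    have e1 : aa p0 (mk k) 0 = 1 := by
      unfold aa
      apply Pr_true
      intro F _
      exact ⟨0, 0, Reach.refl _ _⟩
    unfold bb at h1
    rw [e1] at h1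
    norm_num at h1
  have h2 : bb p0 (mk k) (Nk k) ≤ 1 - hh p0 (Nk k) (2 * Mk k - 1) := by
    apply bb_le_hh p0_nonneg p0_le
    · have : (32:ℤ) ≤ mk k := by exact_mod_cast hm
      omega
    · exact_mod_cast hN0
    · have : (4:ℤ) ≤ Mk k := by exact_mod_cast hM
      omega
    · have : (4:ℤ) ≤ Mk k := by exact_mod_cast hM
      have e : (mk k : ℤ) = 8 * Mk k := by unfold mk; push_cast; ring
      omega
  have h3 := fail_le k (L := Nk k) (8 ^ (mk k)) (by exact_mod_cast hN0) (by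
    have h4 : (Nk k : ℤ) ≤ 8 ^ (mk k) * (2 * Mk k) := by exact_mod_cast hcon
    have h5 : (0:ℤ) ≤ 2 * Mk k := by positivity
    push_cast
    linarith)
  have h6 : ((2:ℝ) * (8 ^ (mk k) : ℕ) + 1) / 25 * (1 / 8) ^ (mk k) ≤ 3 / 25 := by
    push_cast
    have h7 : (8:ℝ) ^ (mk k) * (1 / 8) ^ (mk k) = 1 := by
      rw [← mul_pow]; norm_num
    have h8 : ((1:ℝ) / 8) ^ (mk k) ≤ 1 := pow_le_one₀ (by norm_num) (by norm_num)
    have e : ((2:ℝ) * 8 ^ (mk k) + 1) / 25 * (1 / 8) ^ (mk k) =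
        2 / 25 * (8 ^ (mk k) * (1 / 8) ^ (mk k)) + (1 / 8) ^ (mk k) / 25 := by ring
    rw [e, h7]
    linarith
  linarith

theorem long_fail (k : ℕ) : 1 - hh p0 (sk k) (2 * Mk k - 1) ≤ 1 / 100 := by
  have hM := Mk_ge k
  have hm := mk_ge k
  have hs : (0:ℤ) < sk k := by
    unfold sk
    have : 0 < mk k := by omega
    positivity
  have h3 := fail_le k (L := sk k) (4 * 2 ^ (mk k)) hs (by
    have e : ((sk k : ℕ) : ℤ) = 8 * Mk k * 2 ^ (mk k) := by
      unfold sk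
      have e' : (mk k : ℤ) = 8 * Mk k := by unfold mk; push_cast; ring
      push_cast
      rw [e']
    rw [e]
    have h5 : (0:ℤ) ≤ Mk k := by positivity
    push_cast
    nlinarith)
  refine h3.trans ?_
  push_cast
  have h7 : (2:ℝ) ^ (mk k) * (1 / 8) ^ (mk k) = (1/4) ^ (mk k) := by
    rw [← mul_pow]; norm_num
  have h8 : ((1:ℝ) / 8) ^ (mk k) ≤ (1/8) ^ 32 := pow_le_pow_of_le_one (by norm_num) (by norm_num) hm
  have h9 : ((1:ℝ) / 4) ^ (mk k) ≤ (1/4) ^ 32 := pow_le_pow_of_le_one (by norm_num) (by norm_num) hm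
  have e : ((2:ℝ) * (4 * 2 ^ (mk k)) + 1) / 25 * (1 / 8) ^ (mk k) =
      8 / 25 * (2 ^ (mk k) * (1 / 8) ^ (mk k)) + (1 / 8) ^ (mk k) / 25 := by ring
  rw [e, h7]
  have h10 : ((1:ℝ)/8)^32 ≤ 1/1000 := by norm_num
  have h11 : ((1:ℝ)/4)^32 ≤ 1/1000 := by norm_num
  linarith

/-- No full column in the overlap. -/
theorem rr_le (k : ℕ) : (1 - p0 ^ (mk k)) ^ (sk k + 1) ≤ 1 / (mk k + 1) := by
  have hp : (1 / 2 : ℝ) ^ (mk k) ≤ p0 ^ (mk k) := pow_le_pow_left₀ (by norm_num) p0_half _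
  have hp1 : p0 ^ (mk k) ≤ 1 := pow_le_one₀ p0_nonneg p0_le
  have h1 : (1 - p0 ^ (mk k)) ^ (sk k + 1) ≤ (1 - p0 ^ (mk k)) ^ (sk k) :=
    pow_le_pow_of_le_one (by linarith) (by have := pow_nonneg p0_nonneg (mk k); linarith) (by omega)
  have h2 : (1 - p0 ^ (mk k)) ^ (sk k) ≤ (1 - (1/2) ^ (mk k)) ^ (sk k) :=
    pow_le_pow_left₀ (by linarith) (by linarith) _
  have h3 : (1 - (1/2 : ℝ) ^ (mk k)) ^ (sk k) ≤ (Real.exp (-((1/2) ^ (mk k)))) ^ (sk k) := by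
    apply pow_le_pow_left₀
    · have : (1/2 : ℝ) ^ (mk k) ≤ 1 := pow_le_one₀ (by norm_num) (by norm_num)
      linarith
    · have := Real.add_one_le_exp (-((1/2 : ℝ) ^ (mk k)))
      linarith
  have h4 : (Real.exp (-((1/2 : ℝ) ^ (mk k)))) ^ (sk k) = Real.exp (-(mk k : ℝ)) := by
    rw [← Real.exp_nat_mul]
    congr 1
    unfold sk
    push_cast
    have : (2:ℝ) ^ (mk k) * (1 / 2) ^ (mk k) = 1 := by
      rw [← mul_pow]; norm_num
    calc (mk k : ℝ) * 2 ^ (mk k) * -((1/2) ^ (mk k)) =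
        -((mk k : ℝ) * (2 ^ (mk k) * (1/2) ^ (mk k))) := by ring
      _ = _ := by rw [this]; ring
  have h5 : Real.exp (-(mk k : ℝ)) ≤ 1 / (mk k + 1) := by
    rw [Real.exp_neg, ← one_div]
    apply one_div_le_one_div_of_le
    · positivity
    · have := Real.add_one_le_exp (mk k : ℝ)
      linarith
  rw [h4] at h3
  linarith

theorem Nk_ge_K (k K : ℕ) (_hK : 1 ≤ K) (hk : K ≤ k) : K * (4 * sk k + 6) ≤ Nk k := by
  have h1 := Nk_big k
  have h2 := mk_gt k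
  have hM := Mk_ge k
  have h3 : mk k < 4 ^ (mk k) := by
    have : mk k < 2 ^ (mk k) := Nat.lt_two_pow_self
    have h4 : 2 ^ (mk k) ≤ 4 ^ (mk k) := Nat.pow_le_pow_left (by norm_num) _
    omega
  have h5 : 8 ^ (mk k) = 4 ^ (mk k) * 2 ^ (mk k) := by rw [← mul_pow]; norm_num
  have h6 : 32 * K ≤ 4 ^ (mk k) := by omega
  have e : sk k = 4 * (2 * Mk k) * 2 ^ (mk k) := by unfold sk mk; ring
  have h7 : 1 ≤ 2 ^ (mk k) := Nat.one_le_two_pow
  rw [h5] at h1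
  rw [e]
  set T := 2 ^ (mk k) with hT
  set Hh := 2 * Mk k with hH
  have hH8 : 8 ≤ Hh := by omega
  have h8 : 32 * K * T * Hh ≤ 4 ^ (mk k) * T * Hh :=
    Nat.mul_le_mul_right _ (Nat.mul_le_mul_right _ h6)
  have h9 : K * (4 * (4 * Hh * T) + 6) ≤ 32 * K * T * Hh := by
    have h10 : 6 ≤ T * Hh := by nlinarith
    nlinarith
  omega

/-- The segments of length `N / K` are broken with positive probability. -/
theorem bb_seg (k K : ℕ) (hK : 1 ≤ K) (hk : K ≤ k) :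
    1 / (8 * (K:ℝ)) ≤ bb p0 (mk k) ((Nk k / K : ℕ) - 1) := by
  have hN := Nk_ge_K k K hK hk
  have hm := mk_ge k
  set N := Nk k with hNd
  set ℓ := N / K with hℓ
  set s := sk k with hs
  have hℓ1 : 4 * s + 6 ≤ ℓ := by
    rw [hℓ]
    exact (Nat.le_div_iff_mul_le (by omega)).mpr (by rw [mul_comm]; exact hN)
  have hℓ2 : N < K * (ℓ + 1) := by
    rw [hℓ]
    have := Nat.lt_mul_div_succ N (show 0 < K by omega)
    simpa using this
  have hit := bb_iter p0_nonneg p0_le (m := mk k) (by omega) (L := (ℓ:ℤ) - 1) (s := s)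
    (by omega) (2 * K - 1)
  have ecast : (((2 * K - 1 : ℕ) : ℤ) + 1) = 2 * K := by omega
  have ecast' : (((2 * K - 1 : ℕ) : ℝ) + 1) = 2 * K := by
    have : ((2 * K - 1 + 1 : ℕ) : ℝ) = ((2 * K : ℕ) : ℝ) := by congr 1; omega
    push_cast at this
    linarith
  rw [ecast, ecast'] at hit
  have hmono : bb p0 (mk k) N ≤ bb p0 (mk k) (2 * K * ((ℓ:ℤ) - 1 - s) + s) := by
    apply bb_mono p0_nonneg p0_le (by omega) (by positivity)
    have h1 : (N:ℤ) < K * (ℓ + 1) := by exact_mod_cast hℓ2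
    have h2 : (4:ℤ) * s + 6 ≤ ℓ := by exact_mod_cast hℓ1
    have h3 : (1:ℤ) ≤ K := by exact_mod_cast hK
    have h4 : ((K:ℤ)) * (ℓ + 1) ≤ K * (2 * ((ℓ:ℤ) - 1 - s)) := by
      apply mul_le_mul_of_nonneg_left _ (by omega)
      omega
    have h5 : (0:ℤ) ≤ s := by positivity
    nlinarith
  have h1 := Nk_spec k
  have hr := rr_le k
  have hKr : (1:ℝ) ≤ K := by exact_mod_cast hK
  have hr2 : 1 / ((mk k : ℝ) + 1) ≤ 1 / (8 * K) := by
    apply one_div_le_one_div_of_le (by positivity)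
    have h2 := mk_gt k
    have h3 : (32:ℝ) * k < mk k := by exact_mod_cast h2
    have h4 : (K:ℝ) ≤ k := by exact_mod_cast hk
    linarith
  have hfin : 1 / 2 < 2 * K * (bb p0 (mk k) ((ℓ:ℤ) - 1) + (1 - p0 ^ (mk k)) ^ (s + 1)) := by
    linarith
  have h6 : (1 - p0 ^ (mk k)) ^ (s + 1) ≤ 1 / (8 * K) := hr.trans hr2
  have h7 : 2 * (K:ℝ) * (bb p0 (mk k) ((ℓ:ℤ) - 1) + 1 / (8 * K)) > 1 / 2 := by
    refine lt_of_lt_of_le hfin ?_
    apply mul_le_mul_of_nonneg_left _ (by positivity)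
    linarith
  have h8 : 2 * (K:ℝ) * (1 / (8 * K)) = 1 / 4 := by field_simp; norm_num
  rw [mul_add, h8] at h7
  have h9 : 1 / 4 < 2 * (K:ℝ) * bb p0 (mk k) ((ℓ:ℤ) - 1) := by linarith
  rw [div_le_iff₀ (by positivity)]
  have e : bb p0 (mk k) ((ℓ:ℤ) - 1) * (8 * (K:ℝ)) =
      4 * (2 * (K:ℝ) * bb p0 (mk k) ((ℓ:ℤ) - 1)) := by ring
  rw [e]
  linarith

end Pool.Agent.X135.TT
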