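import Pool.Agent.X135.TT.Tor

/-!
The torus graph, its percolation measure, and the covering by the plane.
-/

set_option autoImplicit false

namespace Pool.Agent.X135.TT

open H974 Finset MeasureTheory

section Law

variable {V : Type} (G : SimpleGraph V)

/-- Bond percolation: every edge of `G` is kept (`true`) with probability `p` and deleted
(`false`) with probability `1 - p`, independently. -/
noncomputable def bLaw (p : unitInterval) : Measure (G.edgeSet → Bool) :=
  Measure.infinitePi (fun _ => ProbabilityTheory.bernoulliMeasure true false p)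

instance (p : unitInterval) : IsProbabilityMeasure (bLaw G p) := by
  unfold bLaw; infer_instance

variable {G} (τ : Edg → G.edgeSet)

/-- The kept edges in a finite set. -/
def FF (S : Finset Edg) (ω : G.edgeSet → Bool) : Finset Edg :=
  S.filter (fun e => ω (τ e) = true)

theorem mem_FF {S : Finset Edg} {ω : G.edgeSet → Bool} {e : Edg} :
    e ∈ FF τ S ω ↔ e ∈ S ∧ ω (τ e) = true := by
  unfold FF; rw [Finset.mem_filter]

theorem mem_image_of_inj [DecidableEq G.edgeSet] {S T : Finset Edg} (hτ : Set.InjOn τ S)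
    (hT : T ⊆ S) {e : Edg} (he : e ∈ S) : τ e ∈ T.image τ ↔ e ∈ T := by
  rw [Finset.mem_image]
  constructor
  · rintro ⟨e', he', h⟩
    rwa [← hτ (hT he') he h]
  · intro h
    exact ⟨e, h, rfl⟩

theorem FF_eq_pi [DecidableEq G.edgeSet] {S T : Finset Edg} (hτ : Set.InjOn τ S) (hT : T ⊆ S) :
    {ω | FF τ S ω = T} = Set.pi (↑(S.image τ) : Set G.edgeSet)
      (fun g => {b : Bool | b = true ↔ g ∈ T.image τ}) := by
  ext ω
  rw [Set.mem_pi]
  constructor
  · intro h g hg
    have h' : FF τ S ω = T := h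
    obtain ⟨e, he, rfl⟩ := Finset.mem_image.mp (Finset.mem_coe.mp hg)
    show ω (τ e) = true ↔ τ e ∈ T.image τ
    rw [mem_image_of_inj τ hτ hT he, ← h', mem_FF]
    exact ⟨fun h => ⟨he, h⟩, fun h => h.2⟩
  · intro h
    show FF τ S ω = T
    ext e
    rw [mem_FF]
    constructor
    · rintro ⟨he, hω⟩
      have h1 := h (τ e) (Finset.mem_coe.mpr (Finset.mem_image_of_mem _ he))
      have h2 : ω (τ e) = true ↔ τ e ∈ T.image τ := h1
      rw [mem_image_of_inj τ hτ hT he] at h2
      exact h2.mp hω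
    · intro he
      have h1 := h (τ e) (Finset.mem_coe.mpr (Finset.mem_image_of_mem _ (hT he)))
      have h2 : ω (τ e) = true ↔ τ e ∈ T.image τ := h1
      rw [mem_image_of_inj τ hτ hT (hT he)] at h2
      exact ⟨hT he, h2.mpr he⟩

theorem meas_FF {S : Finset Edg} (hτ : Set.InjOn τ S) (T : Finset Edg) :
    MeasurableSet {ω | FF τ S ω = T} := by
  classical
  by_cases hT : T ⊆ S
  · rw [FF_eq_pi τ hτ hT]
    exact MeasurableSet.pi (Finset.countable_toSet _) (fun _ _ => MeasurableSet.of_discrete)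
  · have : {ω | FF τ S ω = T} = ∅ := by
      ext ω
      simp only [Set.mem_empty_iff_false, iff_false]
      intro h
      have h' : FF τ S ω = T := h
      exact hT (h' ▸ Finset.filter_subset _ _)
    rw [this]
    exact MeasurableSet.empty

theorem law_eq (p : unitInterval) {S T : Finset Edg} (hτ : Set.InjOn τ S) (hT : T ⊆ S) :
    (bLaw G p).real {ω | FF τ S ω = T} =
      (∏ _e ∈ T, (p:ℝ)) * ∏ _e ∈ S \ T, (1 - (p:ℝ)) := by
  classical
  rw [measureReal_def, FF_eq_pi τ hτ hT]
  unfold bLaw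
  rw [Measure.infinitePi_pi _ (fun _ _ => MeasurableSet.of_discrete), ENNReal.toReal_prod,
    Finset.prod_image hτ]
  have h1 : ∀ e ∈ S, ((ProbabilityTheory.bernoulliMeasure true false p)
      {b : Bool | b = true ↔ τ e ∈ T.image τ}).toReal = if e ∈ T then (p:ℝ) else 1 - (p:ℝ) := by
    intro e heS
    by_cases he : e ∈ T
    · rw [if_pos he]
      have hm : τ e ∈ T.image τ := Finset.mem_image_of_mem _ he
      exact ProbabilityTheory.bernoulliMeasure_real_apply_of_mem_of_notMem p
        MeasurableSet.of_discrete (show (true = true ↔ τ e ∈ T.image τ) by simp [hm])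
        (show ¬ (false = true ↔ τ e ∈ T.image τ) by simp [hm])
    · rw [if_neg he]
      have hm : τ e ∉ T.image τ := by
        rw [mem_image_of_inj τ hτ hT heS]; exact he
      exact ProbabilityTheory.bernoulliMeasure_real_apply_of_notMem_of_mem p
        MeasurableSet.of_discrete (show ¬ (true = true ↔ τ e ∈ T.image τ) by simp [hm])
        (show (false = true ↔ τ e ∈ T.image τ) by simp [hm])
  rw [Finset.prod_congr rfl h1, Finset.prod_ite]
  congr 1
  · apply Finset.prod_congr _ (fun _ _ => rfl)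
    ext e
    simp only [Finset.mem_filter]
    exact ⟨fun h => h.2, fun h => ⟨hT h, h⟩⟩
  · apply Finset.prod_congr _ (fun _ _ => rfl)
    ext e
    simp only [Finset.mem_filter, Finset.mem_sdiff]

theorem law_event (p : unitInterval) {S : Finset Edg} (hτ : Set.InjOn τ S)
    (Q : Finset Edg → Prop) :
    (bLaw G p).real {ω | Q (FF τ S ω)} = Pr (fun _ => (p:ℝ)) S Q := by
  classical
  have event_union : {ω | Q (FF τ S ω)} = ⋃ T ∈ S.powerset.filter Q, {ω | FF τ S ω = T} := by
    ext ω
    simp only [Set.mem_iUnion, Finset.mem_filter, Finset.mem_powerset]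
    constructor
    · intro h
      exact ⟨FF τ S ω, ⟨Finset.filter_subset _ _, h⟩, rfl⟩
    · rintro ⟨T, ⟨-, hQ⟩, hω⟩
      have hω' : FF τ S ω = T := hω
      show Q (FF τ S ω)
      rw [hω']; exact hQ
  rw [event_union, measureReal_biUnion_finset]
  · unfold Pr Ex
    rw [Finset.sum_filter]
    apply Finset.sum_congr rfl
    intro T hT
    show _ = (∏ _e ∈ T, (p:ℝ)) * (∏ _e ∈ S \ T, (1 - (p:ℝ))) * ind (Q T)
    split_ifs with hQ
    · rw [law_eq τ p hτ (Finset.mem_powerset.mp hT), ind_of hQ, mul_one]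
    · rw [ind_not_of hQ, mul_zero]
  · intro T _ T' _ hne
    rw [Function.onFun, Set.disjoint_left]
    intro ω h1 h2
    exact hne ((show FF τ S ω = T from h1).symm.trans (show FF τ S ω = T' from h2))
  · intro T _
    exact meas_FF τ hτ T

end Law

/-! ### The torus -/

/-- The torus `ℤ/N × ℤ/m` with nearest-neighbour edges. -/
def torus (N m : ℕ) : SimpleGraph (ZMod N × ZMod m) :=
  SimpleGraph.fromRel (fun u v => v = u + (1, 0) ∨ v = u + (0, 1))

theorem one_ne {n : ℕ} (hn : 3 ≤ n) : (1 : ZMod n) ≠ 0 := by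
  have : Fact (1 < n) := ⟨by omega⟩
  exact one_ne_zero

theorem two_ne {n : ℕ} (hn : 3 ≤ n) : (1 : ZMod n) + 1 ≠ 0 := by
  intro h
  have h2 : ((2 : ℕ) : ZMod n) = 0 := by push_cast; rw [← h]; norm_num
  rw [ZMod.natCast_eq_zero_iff] at h2
  have := Nat.le_of_dvd (by norm_num) h2
  omega

theorem torus_adj {N m : ℕ} (hN : 3 ≤ N) (hm : 3 ≤ m) {u v : ZMod N × ZMod m} :
    (torus N m).Adj u v ↔ (v = u + (1, 0) ∨ v = u + (0, 1)) ∨ (u = v + (1, 0) ∨ u = v + (0, 1)) := by
  unfold torus
  rw [SimpleGraph.fromRel_adj]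
  constructor
  · exact fun h => h.2
  · intro h
    refine ⟨?_, h⟩
    rintro rfl
    have h1 : u ≠ u + (1, 0) := by
      intro h
      have := congrArg Prod.fst h
      simp only [Prod.fst_add] at this
      exact one_ne hN (by simpa using this)
    have h2 : u ≠ u + (0, 1) := by
      intro h
      have := congrArg Prod.snd h
      simp only [Prod.snd_add] at this
      exact one_ne hm (by simpa using this)
    tauto

/-- The covering map with base point `c`. -/
def cov {N m : ℕ} (c : ZMod N × ZMod m) (u : Vtx) : ZMod N × ZMod m :=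
  c + ((u.1 : ZMod N), (u.2 : ZMod m))

theorem cov_right {N m : ℕ} (c : ZMod N × ZMod m) (x y : ℤ) :
    cov c (x + 1, y) = cov c (x, y) + (1, 0) := by
  unfold cov
  push_cast
  rw [add_assoc]
  congr 1
  simp

theorem cov_up {N m : ℕ} (c : ZMod N × ZMod m) (x y : ℤ) :
    cov c (x, y + 1) = cov c (x, y) + (0, 1) := by
  unfold cov
  push_cast
  rw [add_assoc]
  congr 1
  simp

theorem cov_adj {N m : ℕ} (hN : 3 ≤ N) (hm : 3 ≤ m) (c : ZMod N × ZMod m) (e : Edg) :
    (torus N m).Adj (cov c (src e)) (cov c (tgt e)) := by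
  rw [torus_adj hN hm]
  obtain ⟨x, y, _ | _⟩ := e
  · left; right
    rw [src_mk, tgt_false, cov_up]
  · left; left
    rw [src_mk, tgt_true, cov_right]

/-- The edge of the torus below an edge of the plane. -/
def tau {N m : ℕ} (hN : 3 ≤ N) (hm : 3 ≤ m) (c : ZMod N × ZMod m) (e : Edg) :
    (torus N m).edgeSet :=
  ⟨s(cov c (src e), cov c (tgt e)), (SimpleGraph.mem_edgeSet _).mpr (cov_adj hN hm c e)⟩

theorem cov_mod {N m : ℕ} (c : ZMod N × ZMod m) (x y : ℤ) :
    cov c (x % N, y % m) = cov c (x, y) := by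
  unfold cov
  simp only [ZMod.intCast_mod]

theorem cov_eq_iff {N m : ℕ} (c : ZMod N × ZMod m) (u v : Vtx) :
    cov c u = cov c v ↔ (N : ℤ) ∣ u.1 - v.1 ∧ (m : ℤ) ∣ u.2 - v.2 := by
  unfold cov
  rw [add_right_inj, Prod.mk.injEq]
  rw [← ZMod.intCast_zmod_eq_zero_iff_dvd, ← ZMod.intCast_zmod_eq_zero_iff_dvd]
  push_cast
  rw [sub_eq_zero, sub_eq_zero]

end Pool.Agent.X135.TT
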