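import Pool.Agent.X135.TT.Strip

/-!
Percolation on cylinders: probabilities of crossings, gluing, decay.
-/

set_option autoImplicit false

namespace Pool.Agent.X135.TT

open H974 Finset

section Generic

variable {E : Type*} [DecidableEq E]

theorem Pr_open (q : ℝ) {B S : Finset E} (hB : B ⊆ S) :
    Pr (fun _ => q) S (fun F => B ⊆ F) = q ^ B.card := by
  have h1 : Pr (fun _ => q) S (fun F => B ⊆ F) = Pr (fun _ => q) B (fun F => B ⊆ F) := by
    apply Pr_local hB
    intro F _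
    constructor
    · intro h; exact Finset.subset_inter h (Finset.Subset.refl _)
    · intro h; exact h.trans Finset.inter_subset_left
  rw [h1]
  unfold Pr Ex
  rw [Finset.sum_eq_single B]
  · beta_reduce
    rw [ind_of (Finset.Subset.refl B)]
    simp
  · intro F hF hne
    have hF' := Finset.mem_powerset.mp hF
    beta_reduce
    rw [ind_not_of (fun h => hne (Finset.Subset.antisymm hF' h)), mul_zero]
  · intro h
    exact absurd (Finset.mem_powerset.mpr (Finset.Subset.refl B)) h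

theorem Pr_closed (q : ℝ) {B S : Finset E} (hB : B ⊆ S) :
    Pr (fun _ => q) S (fun F => Disjoint B F) = (1 - q) ^ B.card := by
  have h1 : Pr (fun _ => q) S (fun F => Disjoint B F) =
      Pr (fun _ => q) B (fun F => Disjoint B F) := by
    apply Pr_local hB
    intro F _
    rw [Finset.disjoint_left, Finset.disjoint_left]
    constructor
    · intro h x h2 h3; exact h h2 (Finset.mem_inter.mp h3).1
    · intro h x h2 h3; exact h h2 (Finset.mem_inter.mpr ⟨h3, h2⟩)
  rw [h1]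
  unfold Pr Ex
  rw [Finset.sum_eq_single ∅]
  · beta_reduce
    rw [ind_of (Finset.disjoint_empty_right B)]
    simp
  · intro F hF hne
    have hF' := Finset.mem_powerset.mp hF
    beta_reduce
    rw [ind_not_of, mul_zero]
    intro h
    apply hne
    rw [Finset.eq_empty_iff_forall_notMem]
    intro x hx
    exact (Finset.disjoint_left.mp h) (hF' hx) hx
  · intro h
    exact absurd (Finset.mem_powerset.mpr (Finset.empty_subset B)) h

theorem Pr_blocks {p : E → ℝ} {U : Finset E} (B : ℕ → Finset E) (A : ℕ → Finset E → Prop)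
    (n : ℕ) (hB : ∀ i < n, B i ⊆ U) (hd : ∀ i < n, ∀ j < n, i ≠ j → Disjoint (B i) (B j))
    (hA : ∀ i < n, ∀ F, A i F ↔ A i (F ∩ B i)) :
    Pr p U (fun F => ∀ i < n, A i F) = ∏ i ∈ Finset.range n, Pr p U (A i) := by
  induction n with
  | zero =>
    simp only [Finset.range_zero, Finset.prod_empty]
    exact Pr_true U (by intro F _ i hi; omega)
  | succ n ih =>
    rw [Finset.prod_range_succ, ← ih (fun i hi => hB i (by omega))
      (fun i hi j hj => hd i (by omega) j (by omega)) (fun i hi => hA i (by omega))]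
    have h1 := Pr_indep (p := p) (U := U) (S := (Finset.range n).biUnion B) (T := B n)
      (A := fun F => ∀ i < n, A i F) (B := A n)
      (by
        rw [Finset.biUnion_subset]
        intro i hi
        exact hB i (by have := Finset.mem_range.mp hi; omega))
      (hB n (by omega))
      (by
        rw [Finset.disjoint_biUnion_left]
        intro i hi
        have := Finset.mem_range.mp hi
        exact hd i (by omega) n (by omega) (by omega))
      (by
        intro F _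
        have key : ∀ i < n, F ∩ (Finset.range n).biUnion B ∩ B i = F ∩ B i := by
          intro i hi
          ext x
          simp only [Finset.mem_inter, Finset.mem_biUnion, Finset.mem_range]
          constructor
          · rintro ⟨⟨h1, -⟩, h3⟩; exact ⟨h1, h3⟩
          · rintro ⟨h1, h3⟩; exact ⟨⟨h1, i, hi, h3⟩, h3⟩
        constructor
        · intro h i hi
          rw [hA i (by omega), key i hi, ← hA i (by omega)]
          exact h i hi
        · intro h i hi
          have := h i hi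
          rw [hA i (by omega), key i hi, ← hA i (by omega)] at this
          exact this)
      (fun F _ => hA n (by omega) F)
    rw [← h1]
    apply Pr_congr
    intro F _
    constructor
    · intro h
      exact ⟨fun i hi => h i (by omega), h n (by omega)⟩
    · rintro ⟨h1, h2⟩ i hi
      rcases Nat.lt_succ_iff_lt_or_eq.mp hi with h | h
      · exact h1 i h
      · rw [h]; exact h2

end Generic

/-! ### Cylinders -/

/-- A configuration on the cylinder of circumference `m`, lifted to the plane. -/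
def perY (m : ℤ) (F : Finset Edg) : Set Edg := {e | ((e.1, e.2.1 % m, e.2.2) : Edg) ∈ F}

/-- The edges of the cylinder of circumference `m` between the columns `a` and `b`. -/
noncomputable def CE (m a b : ℤ) : Finset Edg :=
  (Finset.Icc a b ×ˢ (Finset.Ico 0 m ×ˢ Finset.univ)).filter
    (fun e => if e.2.2 then e.1 < b else True)

theorem mem_CE_true {m a b x y : ℤ} :
    ((x, y, true) : Edg) ∈ CE m a b ↔ (a ≤ x ∧ x < b) ∧ (0 ≤ y ∧ y < m) := by
  simp only [CE, Finset.mem_filter, Finset.mem_product, Finset.mem_Icc, Finset.mem_Ico,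
    Finset.mem_univ, and_true, if_true]
  constructor
  · rintro ⟨⟨h1, h2⟩, h3⟩; exact ⟨⟨h1.1, h3⟩, h2⟩
  · rintro ⟨h1, h2⟩; exact ⟨⟨⟨h1.1, h1.2.le⟩, h2⟩, h1.2⟩

theorem mem_CE_false {m a b x y : ℤ} :
    ((x, y, false) : Edg) ∈ CE m a b ↔ (a ≤ x ∧ x ≤ b) ∧ (0 ≤ y ∧ y < m) := by
  simp [CE]

theorem CE_mono {m a b a' b' : ℤ} (h1 : a' ≤ a) (h2 : b ≤ b') : CE m a b ⊆ CE m a' b' := by
  rintro ⟨x, y, _ | _⟩ h
  · rw [mem_CE_false] at h ⊢; omega
  · rw [mem_CE_true] at h ⊢; omega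

theorem perY_local {m a b : ℤ} (hm : 0 < m) {F S : Finset Edg} (hS : CE m a b ⊆ S) :
    perY m (F ∩ S) ∩ StripE a b = perY m F ∩ StripE a b := by
  ext ⟨x, y, c⟩
  constructor
  · rintro ⟨h1, h2⟩
    exact ⟨(Finset.mem_inter.mp h1).1, h2⟩
  · rintro ⟨h1, h2⟩
    refine ⟨Finset.mem_inter.mpr ⟨h1, hS ?_⟩, h2⟩
    have h3 := Int.emod_nonneg y hm.ne'
    have h4 := Int.emod_lt_of_pos y hm
    cases c
    · rw [mem_StripE_false] at h2
      show ((x, y % m, false) : Edg) ∈ _
      rw [mem_CE_false]; omega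
    · rw [mem_StripE_true] at h2
      show ((x, y % m, true) : Edg) ∈ _
      rw [mem_CE_true]; omega

theorem X_local {m a b : ℤ} (hm : 0 < m) {F S : Finset Edg} (hS : CE m a b ⊆ S) :
    X a b (perY m F) ↔ X a b (perY m (F ∩ S)) := by
  unfold X
  rw [perY_local hm hS]

/-- The probability that the cylinder segment with the columns `0, …, L` is crossed. -/
noncomputable def aa (q : ℝ) (m L : ℤ) : ℝ :=
  Pr (fun _ => q) (CE m 0 L) (fun F => X 0 L (perY m F))

theorem trl_CE (m a b s : ℤ) : (trl s 0).mp (CE m a b) = CE m (a + s) (b + s) := by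
  ext ⟨x, y, _ | _⟩
  · rw [LSym.mem_mp, trl_φs, mem_CE_false, mem_CE_false]; omega
  · rw [LSym.mem_mp, trl_φs, mem_CE_true, mem_CE_true]; omega

theorem sh_perY (m s : ℤ) (F : Finset Edg) : sh s 0 (perY m ((trl s 0).mp F)) = perY m F := by
  ext ⟨x, y, c⟩
  show (((x + s, (y + 0) % m, c) : Edg)) ∈ (trl s 0).mp F ↔ ((x, y % m, c) : Edg) ∈ F
  rw [LSym.mem_mp, trl_φs]
  simp

theorem pr_X (q : ℝ) {m a b : ℤ} (hm : 0 < m) {S : Finset Edg} (hS : CE m a b ⊆ S) :
    Pr (fun _ => q) S (fun F => X a b (perY m F)) = aa q m (b - a) := by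
  have h1 : Pr (fun _ => q) S (fun F => X a b (perY m F)) =
      Pr (fun _ => q) (CE m a b) (fun F => X a b (perY m F)) := by
    apply Pr_local hS
    intro F _
    exact X_local hm (Finset.Subset.refl _)
  rw [h1]
  have h2 : CE m a b = (trl a 0).mp (CE m 0 (b - a)) := by
    rw [trl_CE]; congr 1 <;> ring
  rw [h2, LSym.pr]
  unfold aa
  apply Pr_congr
  intro F _
  have h3 := X_sh (G := perY m ((trl a 0).mp F)) (a := 0) (b := b - a) a 0
  rw [sh_perY] at h3
  rw [h3]
  have e1 : (0 : ℤ) + a = a := by ring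
  have e2 : b - a + a = b := by ring
  rw [e1, e2]

theorem aa_nonneg {q : ℝ} (h0 : 0 ≤ q) (h1 : q ≤ 1) (m L : ℤ) : 0 ≤ aa q m L :=
  Pr_nonneg (okq h0 h1) _ _

theorem aa_le_one {q : ℝ} (h0 : 0 ≤ q) (h1 : q ≤ 1) (m L : ℤ) : aa q m L ≤ 1 :=
  Pr_le_one (okq h0 h1) _ _

/-- The probability that there is no crossing. -/
noncomputable def bb (q : ℝ) (m L : ℤ) : ℝ := 1 - aa q m L

theorem bb_nonneg {q : ℝ} (h0 : 0 ≤ q) (h1 : q ≤ 1) (m L : ℤ) : 0 ≤ bb q m L := by
  have := aa_le_one h0 h1 m L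
  unfold bb; linarith

theorem pr_notX (q : ℝ) {m a b : ℤ} (hm : 0 < m) {S : Finset Edg} (hS : CE m a b ⊆ S) :
    Pr (fun _ => q) S (fun F => ¬ X a b (perY m F)) = bb q m (b - a) := by
  rw [Pr_not, pr_X q hm hS]; rfl

theorem bb_mono {q : ℝ} (h0 : 0 ≤ q) (h1 : q ≤ 1) {m L L' : ℤ} (hm : 0 < m) (hL : 0 ≤ L)
    (hLL : L ≤ L') : bb q m L ≤ bb q m L' := by
  have e1 := pr_notX q (a := 0) (b := L) hm (CE_mono (m := m) (le_refl 0) hLL)
  have e2 := pr_notX q (a := 0) (b := L') hm (Finset.Subset.refl (CE m 0 L'))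
  rw [sub_zero] at e1 e2
  rw [← e1, ← e2]
  apply Pr_mono (okq h0 h1)
  intro F _ h h'
  exact h (X_sub le_rfl hL hLL h')

/-! ### Columns -/

/-- Vertical edges of a column. -/
noncomputable def VB (m : ℕ) (j : ℤ) : Finset Edg :=
  (Finset.Ico (0:ℤ) m).image (fun y => ((j, y, false) : Edg))

/-- Horizontal edges of a column. -/
noncomputable def HB (m : ℕ) (j : ℤ) : Finset Edg :=
  (Finset.Ico (0:ℤ) m).image (fun y => ((j, y, true) : Edg))

theorem mem_VB {m : ℕ} {j x y : ℤ} {c : Bool} :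
    ((x, y, c) : Edg) ∈ VB m j ↔ x = j ∧ (0 ≤ y ∧ y < m) ∧ c = false := by
  simp only [VB, Finset.mem_image, Finset.mem_Ico, Prod.mk.injEq]
  constructor
  · rintro ⟨y', h, rfl, rfl, rfl⟩; exact ⟨rfl, h, rfl⟩
  · rintro ⟨rfl, h, rfl⟩; exact ⟨y, h, rfl, rfl, rfl⟩

theorem mem_HB {m : ℕ} {j x y : ℤ} {c : Bool} :
    ((x, y, c) : Edg) ∈ HB m j ↔ x = j ∧ (0 ≤ y ∧ y < m) ∧ c = true := by
  simp only [HB, Finset.mem_image, Finset.mem_Ico, Prod.mk.injEq]
  constructor
  · rintro ⟨y', h, rfl, rfl, rfl⟩; exact ⟨rfl, h, rfl⟩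
  · rintro ⟨rfl, h, rfl⟩; exact ⟨y, h, rfl, rfl, rfl⟩

theorem card_VB (m : ℕ) (j : ℤ) : (VB m j).card = m := by
  unfold VB
  rw [Finset.card_image_of_injective]
  · simp
  · intro y y' h
    simpa using h

theorem card_HB (m : ℕ) (j : ℤ) : (HB m j).card = m := by
  unfold HB
  rw [Finset.card_image_of_injective]
  · simp
  · intro y y' h
    simpa using h

theorem VB_sub_CE {m : ℕ} {j a b : ℤ} (h1 : a ≤ j) (h2 : j ≤ b) : VB m j ⊆ CE m a b := by
  rintro ⟨x, y, c⟩ h
  rw [mem_VB] at h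
  obtain ⟨rfl, h3, rfl⟩ := h
  rw [mem_CE_false]; omega

theorem HB_sub_CE {m : ℕ} {j a b : ℤ} (h1 : a ≤ j) (h2 : j < b) : HB m j ⊆ CE m a b := by
  rintro ⟨x, y, c⟩ h
  rw [mem_HB] at h
  obtain ⟨rfl, h3, rfl⟩ := h
  rw [mem_CE_true]; omega

theorem Vcol_iff {m : ℕ} (hm : 0 < m) {j : ℤ} {F : Finset Edg} :
    Vcol j (perY m F) ↔ VB m j ⊆ F := by
  have hm' : (0:ℤ) < m := by exact_mod_cast hm
  constructor
  · intro h
    rintro ⟨x, y, c⟩ hx
    rw [mem_VB] at hx
    obtain ⟨rfl, h3, rfl⟩ := hx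
    have h4 : ((x, y % (m:ℤ), false) : Edg) ∈ F := h y
    rwa [Int.emod_eq_of_lt h3.1 h3.2] at h4
  · intro h y
    show ((j, y % (m:ℤ), false) : Edg) ∈ F
    apply h
    rw [mem_VB]
    exact ⟨rfl, ⟨Int.emod_nonneg y hm'.ne', Int.emod_lt_of_pos y hm'⟩, rfl⟩

/-- The probability that no column in an interval of `s` columns has all its vertical edges. -/
theorem pr_noV {q : ℝ} {m : ℕ} (s : ℕ) (a : ℤ) {S : Finset Edg}
    (hS : ∀ i < s, VB m (a + i) ⊆ S) :
    Pr (fun _ => q) S (fun F => ∀ i < s, ¬ VB m (a + i) ⊆ F) = (1 - q ^ m) ^ s := by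
  rw [Pr_blocks (fun i => VB m (a + i)) (fun i F => ¬ VB m (a + i) ⊆ F) s hS]
  · rw [Finset.prod_congr rfl (g := fun _ => 1 - q ^ m)]
    · simp
    · intro i hi
      rw [Pr_not, Pr_open q (hS i (Finset.mem_range.mp hi)), card_VB]
  · intro i hi j hj hij
    rw [Finset.disjoint_left]
    rintro ⟨x, y, c⟩ h1 h2
    rw [mem_VB] at h1 h2
    omega
  · intro i hi F
    rw [Finset.subset_inter_iff]
    simp

theorem pr_noH {q : ℝ} {m : ℕ} (s : ℕ) (a : ℤ) {S : Finset Edg}
    (hS : ∀ i < s, HB m (a + i) ⊆ S) :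
    Pr (fun _ => q) S (fun F => ∀ i < s, ¬ Disjoint (HB m (a + i)) F) =
      (1 - (1 - q) ^ m) ^ s := by
  rw [Pr_blocks (fun i => HB m (a + i)) (fun i F => ¬ Disjoint (HB m (a + i)) F) s hS]
  · rw [Finset.prod_congr rfl (g := fun _ => 1 - (1 - q) ^ m)]
    · simp
    · intro i hi
      rw [Pr_not, Pr_closed q (hS i (Finset.mem_range.mp hi)), card_HB]
  · intro i hi j hj hij
    rw [Finset.disjoint_left]
    rintro ⟨x, y, c⟩ h1 h2
    rw [mem_HB] at h1 h2
    omega
  · intro i hi F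
    rw [Finset.disjoint_left, Finset.disjoint_left]
    apply not_congr
    constructor
    · intro h x h2 h3; exact h h2 (Finset.mem_inter.mp h3).1
    · intro h x h2 h3; exact h h2 (Finset.mem_inter.mpr ⟨h3, h2⟩)

/-- Gluing of crossings. -/
theorem bb_glue {q : ℝ} (h0 : 0 ≤ q) (h1 : q ≤ 1) {m : ℕ} (hm : 0 < m) {L1 L2 : ℤ} {s : ℕ}
    (hs1 : (s:ℤ) ≤ L1) (hs2 : (s:ℤ) ≤ L2) :
    bb q m (L1 + L2 - s) ≤ bb q m L1 + bb q m L2 + (1 - q ^ m) ^ (s + 1) := by
  have hm' : (0:ℤ) < m := by exact_mod_cast hm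
  set S := CE m 0 (L1 + L2 - s) with hS
  have ok := okq h0 h1
  have e0 := pr_notX q (a := 0) (b := L1 + L2 - s) hm' (Finset.Subset.refl S)
  have e1 := pr_notX q (a := 0) (b := L1) (S := S) hm' (CE_mono le_rfl (by omega))
  have e2 := pr_notX q (a := L1 - s) (b := L1 + L2 - s) (S := S) hm' (CE_mono (by omega) le_rfl)
  have e3 := pr_noV (q := q) (m := m) (s + 1) (L1 - s) (S := S)
    (fun i hi => VB_sub_CE (by omega) (by push_cast; omega))
  have d2 : L1 + L2 - s - (L1 - s) = L2 := by ring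
  rw [sub_zero] at e0 e1
  rw [d2] at e2
  rw [← e0, ← e1, ← e2, ← e3]
  refine le_trans ?_ (add_le_add (Pr_or_le ok S _ _) le_rfl)
  refine le_trans ?_ (Pr_or_le ok S _ _)
  apply Pr_mono ok
  intro F _ h
  by_contra hcon
  push Not at hcon
  obtain ⟨⟨c1, c2⟩, i, hi, c3⟩ := hcon
  rw [← Vcol_iff hm] at c3
  exact h (X_glue (a := 0) (b := L1) (a' := L1 - s) (by omega) (by omega)
    (by omega) (by omega) c1 c2 c3)

theorem bb_iter {q : ℝ} (h0 : 0 ≤ q) (h1 : q ≤ 1) {m : ℕ} (hm : 0 < m) {L : ℤ} {s : ℕ}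
    (hs : (s:ℤ) ≤ L) (k : ℕ) :
    bb q m ((k + 1) * (L - s) + s) ≤ (k + 1) * (bb q m L + (1 - q ^ m) ^ (s + 1)) := by
  have hr : 0 ≤ (1 - q ^ m) ^ (s + 1) := by
    apply pow_nonneg
    have := pow_le_one₀ (n := m) h0 h1
    linarith
  induction k with
  | zero =>
    have e : ((0:ℕ):ℤ) + 1 = 1 := by norm_num
    rw [e, one_mul]
    have e2 : L - s + s = L := by ring
    rw [e2]
    simp only [Nat.cast_zero, zero_add, one_mul]
    linarith
  | succ k ih =>
    have hLs : 0 ≤ L - s := by omega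
    have hmul : 0 ≤ ((k:ℤ) + 1) * (L - s) := mul_nonneg (by positivity) hLs
    have h2 := bb_glue h0 h1 hm (L1 := (k + 1) * (L - s) + s) (L2 := L) (s := s)
      (by linarith) hs
    have e : ((k:ℤ) + 1) * (L - s) + s + L - s = ((k + 1 : ℕ) + 1) * (L - s) + s := by
      push_cast; ring
    rw [e] at h2
    refine h2.trans ?_
    push_cast
    nlinarith

/-- The crossing probability tends to zero. -/
theorem aa_decay {q : ℝ} (h0 : 0 ≤ q) (h1 : q ≤ 1) {m : ℕ} (hm : 0 < m) (L : ℕ) :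
    aa q m L ≤ (1 - (1 - q) ^ m) ^ L := by
  have hm' : (0:ℤ) < m := by exact_mod_cast hm
  have e0 := pr_X q (a := 0) (b := (L:ℤ)) hm' (Finset.Subset.refl (CE m 0 L))
  have e3 := pr_noH (q := q) (m := m) L 0 (S := CE m 0 L)
    (fun i hi => HB_sub_CE (by omega) (by omega))
  rw [sub_zero] at e0
  rw [← e0, ← e3]
  apply Pr_mono (okq h0 h1)
  intro F _ h i hi hcon
  refine not_X_of_closed (x := 0 + (i:ℤ)) (by omega) (by omega) ?_ h
  intro y hy
  have hy' : ((0 + (i:ℤ), y % (m:ℤ), true) : Edg) ∈ F := hy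
  refine (Finset.disjoint_left.mp hcon) ?_ hy'
  rw [mem_HB]
  exact ⟨rfl, ⟨Int.emod_nonneg y hm'.ne', Int.emod_lt_of_pos y hm'⟩, rfl⟩

end Pool.Agent.X135.TT
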