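import Pool.Agent.X135.TT.Prob
import Pool.Agent.H974R2.FinalFin

/-!
Rectangles: crossings of long strips, and the connection of a point to a distant column.
-/

set_option autoImplicit false

namespace Pool.Agent.X135.TT

open H974 Finset

theorem glue_union {q : ℝ} (h0 : 0 ≤ q) (h1 : q ≤ 1) {w1 w2 v h : ℤ} (hv : 0 < v) (hv1 : v ≤ w1)
    (hv2 : v ≤ w2) (hh0 : 0 < h) :
    1 - hh q (w1 + w2 - v) h ≤ (1 - hh q w1 h) + (1 - hh q w2 h) + (1 - hh q h v) := by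
  set S := RE 0 (w1 + w2 - v) 0 h with hS
  have s1 : LRE 0 w1 0 h ⊆ S := by
    rintro ⟨x, y, _ | _⟩ h8
    · simp only [mem_RE_false, mem_LRE_false, hS] at h8 ⊢; omega
    · simp only [mem_RE_true, mem_LRE_true, hS] at h8 ⊢; omega
  have s2 : LRE (w1 - v) (w1 + w2 - v) 0 h ⊆ S := by
    rintro ⟨x, y, _ | _⟩ h8
    · simp only [mem_RE_false, mem_LRE_false, hS] at h8 ⊢; omega
    · simp only [mem_RE_true, mem_LRE_true, hS] at h8 ⊢; omega
  have s3 : TBE (w1 - v) w1 0 h ⊆ S := by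
    rintro ⟨x, y, _ | _⟩ h8
    · simp only [mem_RE_false, mem_TBE_false, hS] at h8 ⊢; omega
    · simp only [mem_RE_true, mem_TBE_true, hS] at h8 ⊢; omega
  have s4 : LRE 0 (w1 + w2 - v) 0 h ⊆ S := LRE_subset_RE
  have ok := okq h0 h1
  have e1 := pr_LRc q s1
  have e2 := pr_LRc q s2
  have e3 := pr_TBc q s3
  have e4 := pr_LRc q s4
  have i1 := Pr_and_ge ok S (LRc 0 w1 0 h) (LRc (w1 - v) (w1 + w2 - v) 0 h)
  have i2 := Pr_and_ge ok S (fun F => LRc 0 w1 0 h F ∧ LRc (w1 - v) (w1 + w2 - v) 0 h F)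
    (TBc (w1 - v) w1 0 h)
  have i3 : Pr (fun _ => q) S (fun F => (LRc 0 w1 0 h F ∧ LRc (w1 - v) (w1 + w2 - v) 0 h F) ∧
      TBc (w1 - v) w1 0 h F) ≤ Pr (fun _ => q) S (LRc 0 (w1 + w2 - v) 0 h) := by
    apply Pr_mono ok
    rintro F _ ⟨⟨hA, hB⟩, hC⟩
    exact glue (by omega) (by omega) (by omega) hh0 hA hB hC
  have d1 : w1 - 0 = w1 := by ring
  have d2 : w1 + w2 - v - (w1 - v) = w2 := by ring
  have d3 : w1 - (w1 - v) = v := by ring
  have d4 : w1 + w2 - v - 0 = w1 + w2 - v := by ring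
  have d5 : h - 0 = h := by ring
  rw [d1, d5] at e1
  rw [d2, d5] at e2
  rw [d5, d3] at e3
  rw [d4, d5] at e4
  linarith

/-- Crossing of a long strip. -/
theorem long_strip {p : ℝ} (h0 : 0 ≤ p) (h1 : p ≤ 1) {N : ℕ} (hN : 2 ≤ N) (k : ℕ) :
    1 - hh p ((k + 2) * N) (N - 1) ≤ (2 * k + 1) * eps p N := by
  have hN' : (2:ℤ) ≤ N := by exact_mod_cast hN
  induction k with
  | zero =>
    unfold eps
    have : ((0:ℕ):ℤ) + 2 = 2 := by norm_num
    rw [this]
    simp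
  | succ k ih =>
    have hk : (2:ℤ) * N ≤ (k + 2) * N := by
      have : (0:ℤ) ≤ k * N := by positivity
      linarith
    have g := glue_union h0 h1 (w1 := (k + 2) * N) (w2 := 2 * N) (v := N) (h := (N:ℤ) - 1)
      (by omega) (by omega) (by omega) (by omega)
    have e : ((k:ℤ) + 2) * N + 2 * N - N = ((k + 1 : ℕ) + 2) * N := by push_cast; ring
    rw [e] at g
    have hTB : hh p (2 * N) (N - 1) ≤ hh p (N - 1) N :=
      hh_mono h0 h1 (by omega) (by omega) (by omega)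
    have hE : eps p N = 1 - hh p (2 * N) (N - 1) := rfl
    push_cast
    push_cast at g
    linarith

theorem eps_pow' {p : ℝ} (h0 : 0 ≤ p) (h1 : p ≤ 1) (j : ℕ) :
    25 * eps p (2^j * 2) ≤ (25 * eps p 2)^(2^j) := by
  induction j with
  | zero => simp
  | succ j ih =>
    have hN2 : 2 ≤ 2^j * 2 := by
      have : 0 < 2^j := by positivity
      omega
    have h := eps_double h0 h1 hN2
    have e : 2^(j+1) * 2 = 2 * (2^j * 2) := by ring
    rw [e, pow_succ 2 j, pow_mul]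
    have h2 := eps_nonneg h0 h1 (2^j * 2)
    calc 25 * eps p (2 * (2^j * 2)) ≤ 25 * (25 * (eps p (2^j*2))^2) := by linarith
      _ = (25 * eps p (2^j * 2))^2 := by ring
      _ ≤ _ := pow_le_pow_left₀ (by positivity) ih 2

theorem eps_two {p : ℝ} (h0 : 0 ≤ p) (h1 : p ≤ 1) : eps p 2 ≤ 4 * (1 - p) := by
  have h2 : p ^ 4 ≤ hh p 4 1 := by
    set B : Finset Edg := (Finset.Ico (0:ℤ) 4).image (fun x => ((x, 0, true) : Edg)) with hB
    have hBs : B ⊆ LRE 0 4 0 1 := by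
      intro e he
      rw [hB, Finset.mem_image] at he
      obtain ⟨x, hx, rfl⟩ := he
      rw [Finset.mem_Ico] at hx
      rw [mem_LRE_true]; omega
    have hc : B.card = 4 := by
      rw [hB, Finset.card_image_of_injective]
      · simp
      · intro y y' h
        simpa using h
    have h3 := Pr_open p hBs
    rw [hc] at h3
    rw [← h3]
    unfold hh
    apply Pr_mono (okq h0 h1)
    intro F _ hF
    refine ⟨0, 0, by omega, by omega, ?_⟩
    have st : ∀ x : ℤ, 0 ≤ x → x < 4 → Reach (↑F ∩ ↑(LRE 0 4 0 1)) (x, 0) (x + 1, 0) := by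
      intro x hx0 hx4
      have : Adj ((↑F : Set Edg) ∩ ↑(LRE 0 4 0 1)) (x, 0) (x + 1, 0) := by
        have hm : ((x, 0, true) : Edg) ∈ B := by
          rw [hB, Finset.mem_image]
          exact ⟨x, Finset.mem_Ico.mpr ⟨hx0, hx4⟩, rfl⟩
        exact ⟨(x, 0, true), ⟨hF hm, hBs hm⟩, Or.inl ⟨rfl, rfl⟩⟩
      exact this.reach
    have s0 := st 0 (by omega) (by omega)
    have s1 := st 1 (by omega) (by omega)
    have s2 := st 2 (by omega) (by omega)
    have s3 := st 3 (by omega) (by omega)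
    norm_num at s0 s1 s2 s3
    exact s0.trans (s1.trans (s2.trans s3))
  have h3 : 1 + (4:ℕ) * (p - 1) ≤ (1 + (p - 1)) ^ 4 := one_add_mul_le_pow (by linarith) 4
  have e : eps p 2 = 1 - hh p 4 1 := by
    unfold eps
    norm_num
  rw [e]
  have e2 : (1 + (p - 1)) = p := by ring
  rw [e2] at h3
  push_cast at h3
  linarith

/-! ### The point and the distant column -/

theorem hpath {G : Set Edg} {y : ℤ} (n : ℕ) (a : ℤ)
    (h : ∀ x, a ≤ x → x < a + n → ((x, y, true) : Edg) ∈ G) : Reach G (a, y) (a + n, y) := by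
  induction n with
  | zero => simpa using Reach.refl G (a, y)
  | succ n ih =>
    refine (ih (fun x h1 h2 => h x h1 (by push_cast; omega))).trans ?_
    have : Adj G (a + n, y) (a + (n + 1 : ℕ), y) := by
      refine ⟨(a + n, y, true), h _ (by omega) (by push_cast; omega), Or.inl ⟨rfl, ?_⟩⟩
      rw [tgt_true]; push_cast; congr 1; ring
    exact this.reach

theorem vpath {G : Set Edg} {x : ℤ} (n : ℕ) (a : ℤ)
    (h : ∀ y, a ≤ y → y < a + n → ((x, y, false) : Edg) ∈ G) : Reach G (x, a) (x, a + n) := by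
  induction n with
  | zero => simpa using Reach.refl G (x, a)
  | succ n ih =>
    refine (ih (fun y h1 h2 => h y h1 (by push_cast; omega))).trans ?_
    have : Adj G (x, a + n) (x, a + (n + 1 : ℕ)) := by
      refine ⟨(x, a + n, false), h _ (by omega) (by push_cast; omega), Or.inl ⟨rfl, ?_⟩⟩
      rw [tgt_false]; push_cast; congr 1; ring
    exact this.reach

/-- A full rectangle is connected. -/
theorem rect_conn {a b c d : ℤ} {u v : Vtx} (hu : inR a b c d u) (hv : inR a b c d v) :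
    Reach (↑(RE a b c d) : Set Edg) u v := by
  have key : ∀ w : Vtx, inR a b c d w → Reach (↑(RE a b c d) : Set Edg) (a, c) w := by
    rintro ⟨x, y⟩ ⟨⟨h1, h2⟩, h3, h4⟩
    simp only at h1 h2 h3 h4
    have p1 := hpath (G := (↑(RE a b c d) : Set Edg)) (y := c) (x - a).toNat a (by
      intro z hz1 hz2
      rw [mem_coe, mem_RE_true]; omega)
    have p2 := vpath (G := (↑(RE a b c d) : Set Edg)) (x := x) (y - c).toNat c (by
      intro z hz1 hz2
      rw [mem_coe, mem_RE_false]; omega)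
    have e1 : a + ((x - a).toNat : ℤ) = x := by omega
    have e2 : c + ((y - c).toNat : ℤ) = y := by omega
    rw [e1] at p1
    rw [e2] at p2
    exact p1.trans p2
  exact (key u hu).symm.trans (key v hv)

theorem local_conn {J : ℕ} (hJ : ¬ Even J) {F : Finset Edg} (hbase : boxE 4 ⊆ F)
    (hsteps : ∀ j ≤ J, Step 2 j F) {s : ℤ} (hs : 2 * ((2^J * 2 : ℕ) : ℤ) ≤ s)
    (hlong : LRc 0 s 0 (2 * ((2^J * 2 : ℕ) : ℤ) - 1) F) :
    ∃ x', Reach (↑F ∩ ↑(RE (-(2 * ((2^J * 2 : ℕ) : ℤ))) s (-(2 * ((2^J * 2 : ℕ) : ℤ)))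
      (2 * ((2^J * 2 : ℕ) : ℤ)))) (0, 0) (s, x') := by
  have hM2 : 2 ≤ 2^J * 2 := by
    have : 0 < 2^J := by positivity
    omega
  obtain ⟨a, v, hv, hza, hst⟩ := chain_conn (N := 2) le_rfl (F := F) (z := (0, 0)) (by
    intro u v hu _ _
    have h1 : Reach (↑(RE (-4) 4 (-4) 4) : Set Edg) u (0, 0) := by
      apply rect_conn
      · unfold inR at hu ⊢; push_cast at hu; omega
      · unfold inR; simp
    refine h1.mono ?_
    have e : boxE (2 * 2) = RE (-4) 4 (-4) 4 := by unfold boxE; norm_num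
    intro e' he'
    have h2 : e' ∈ boxE 4 := by
      have e'' : boxE 4 = RE (-4) 4 (-4) 4 := by unfold boxE; norm_num
      rw [e'']; exact he'
    refine ⟨hbase h2, ?_⟩
    rw [e]; exact he') J hsteps
  rw [if_neg hJ] at hst
  obtain ⟨ha, hv2, hav⟩ := hst
  obtain ⟨x, x', hx, hx', hr⟩ := hlong
  set M : ℕ := 2^J * 2 with hM
  have hM' : (2:ℤ) ≤ M := by exact_mod_cast hM2
  have hM1 : (4:ℤ) ≤ M := by
    have hJ1 : 1 ≤ J := by
      rcases Nat.eq_zero_or_pos J with h | h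
      · rw [h] at hJ; exact absurd (by norm_num) hJ
      · exact h
    have : 2^1 ≤ 2^J := Nat.pow_le_pow_right (by norm_num) hJ1
    have h4 : 4 ≤ M := by rw [hM]; omega
    exact_mod_cast h4
  refine ⟨x', ?_⟩
  have hr' : Reach ((↑F : Set Edg) ∩ ↑(RE 0 s 0 (2 * (M:ℤ) - 1))) (0, x) (s, x') :=
    hr.mono (Set.inter_subset_inter_right _ (by exact_mod_cast LRE_subset_RE))
  have m : Reach ((↑F : Set Edg) ∩ ↑(RE 0 s 0 (2 * (M:ℤ)))) (0, x) a :=
    cross_meet (F := ↑F) (A := 0) (B := s) (C := 0) (D := 2 * (M:ℤ)) (a := 0)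
      (b := (M:ℤ) - 1) (c := 0) (d := 2 * (M:ℤ) - 1) le_rfl (by omega) (by omega) le_rfl
      (by omega) (by omega) hr' le_rfl (by simp only; omega) hav ha.le (by omega)
  have s1 : (↑F : Set Edg) ∩ ↑(boxE (2 * M)) ⊆
      ↑F ∩ ↑(RE (-(2 * (M:ℤ))) s (-(2 * (M:ℤ))) (2 * (M:ℤ))) := by
    apply Set.inter_subset_inter_right
    have : boxE (2 * M) ⊆ RE (-(2 * (M:ℤ))) s (-(2 * (M:ℤ))) (2 * (M:ℤ)) := by
      unfold boxE
      push_cast
      exact RE_subset le_rfl hs le_rfl le_rfl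
    exact_mod_cast this
  have s2 : (↑F : Set Edg) ∩ ↑(RE 0 s 0 (2 * (M:ℤ))) ⊆
      ↑F ∩ ↑(RE (-(2 * (M:ℤ))) s (-(2 * (M:ℤ))) (2 * (M:ℤ))) := by
    apply Set.inter_subset_inter_right
    have : RE 0 s 0 (2 * (M:ℤ)) ⊆ RE (-(2 * (M:ℤ))) s (-(2 * (M:ℤ))) (2 * (M:ℤ)) :=
      RE_subset (by omega) le_rfl (by omega) le_rfl
    exact_mod_cast this
  have s3 : (↑F : Set Edg) ∩ ↑(RE 0 s 0 (2 * (M:ℤ) - 1)) ⊆
      ↑F ∩ ↑(RE (-(2 * (M:ℤ))) s (-(2 * (M:ℤ))) (2 * (M:ℤ))) := by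
    apply Set.inter_subset_inter_right
    have : RE 0 s 0 (2 * (M:ℤ) - 1) ⊆ RE (-(2 * (M:ℤ))) s (-(2 * (M:ℤ))) (2 * (M:ℤ)) :=
      RE_subset (by omega) le_rfl (by omega) (by omega)
    exact_mod_cast this
  exact (hza.mono s1).trans ((m.symm.mono s2).trans (hr'.mono s3))

/-- The event that the origin is joined to the column `s` in a box. -/
def Loc (M s : ℤ) (F : Finset Edg) : Prop :=
  ∃ x', Reach (↑F ∩ ↑(RE (-(2 * M)) s (-(2 * M)) (2 * M))) (0, 0) (s, x')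

theorem pr_Loc {p : ℝ} (h0 : 0 ≤ p) (h1 : p ≤ 1) (he : eps p 2 ≤ 1/100) {J : ℕ} (hJ : ¬ Even J)
    {M s : ℤ} (hM : M = ((2^J * 2 : ℕ) : ℤ)) (hs : 2 * M ≤ s) {S : Finset Edg}
    (hS : RE (-(2 * M)) s (-(2 * M)) (2 * M) ⊆ S) :
    1 - 162 * (1 - p) - 1/75 - (1 - hh p s (2 * M - 1)) ≤ Pr (fun _ => p) S (Loc M s) := by
  have ok := okq h0 h1
  have hM2 : 2 ≤ 2^J * 2 := by
    have : 0 < 2^J := by positivity
    omega
  have hM2' : (2:ℤ) ≤ ((2^J * 2 : ℕ) : ℤ) := by exact_mod_cast hM2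
  have hbox : boxE (2 * (2^J * 2)) ⊆ S := by
    refine Finset.Subset.trans ?_ hS
    unfold boxE
    rw [hM] at hs ⊢
    push_cast at hs ⊢
    exact RE_subset le_rfl hs le_rfl le_rfl
  have hbox4 : boxE 4 ⊆ S := (boxE_mono (by omega)).trans hbox
  have e1 := Pr_open p hbox4
  have e2 := pr_steps h0 h1 (N := 2) le_rfl he J hbox
  have e3 : Pr (fun _ => p) S (LRc 0 s 0 (2 * M - 1)) = hh p s (2 * M - 1) := by
    rw [pr_LRc p]
    · rw [sub_zero, sub_zero]
    · refine LRE_subset_RE.trans (Finset.Subset.trans ?_ hS)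
      exact RE_subset (by omega) le_rfl (by omega) (by omega)
  have hcard : (boxE 4).card ≤ 162 := by
    unfold boxE RE
    refine (Finset.card_filter_le _ _).trans ?_
    simp
  have hpow : 1 - 162 * (1 - p) ≤ p ^ (boxE 4).card := by
    have h2 : p ^ 162 ≤ p ^ (boxE 4).card := pow_le_pow_of_le_one h0 h1 hcard
    have h3 : 1 + (162:ℕ) * (p - 1) ≤ (1 + (p - 1)) ^ 162 := one_add_mul_le_pow (by linarith) 162
    have e2 : (1 + (p - 1)) = p := by ring
    rw [e2] at h3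
    push_cast at h3
    linarith
  have i1 := Pr_and_ge ok S (fun F => boxE 4 ⊆ F) (fun F => ∀ j ≤ J, Step 2 j F)
  have i2 := Pr_and_ge ok S (fun F => boxE 4 ⊆ F ∧ ∀ j ≤ J, Step 2 j F) (LRc 0 s 0 (2 * M - 1))
  have i3 : Pr (fun _ => p) S (fun F => (boxE 4 ⊆ F ∧ ∀ j ≤ J, Step 2 j F) ∧
      LRc 0 s 0 (2 * M - 1) F) ≤ Pr (fun _ => p) S (Loc M s) := by
    apply Pr_mono ok
    rintro F _ ⟨⟨k1, k2⟩, k3⟩
    rw [hM] at hs k3
    obtain ⟨x', hx'⟩ := local_conn hJ k1 k2 hs k3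
    rw [← hM] at hx'
    exact ⟨x', hx'⟩
  have h5 : 0 ≤ (1/4:ℝ)^(J+1) := by positivity
  rw [e1] at i1
  linarith

/-- Comparison of cylinders with rectangles. -/
theorem bb_le_hh {p : ℝ} (h0 : 0 ≤ p) (h1 : p ≤ 1) {m L h : ℤ} (hm : 0 < m) (hL : 0 < L)
    (hh0 : 0 ≤ h) (hhm : h < m) : bb p m L ≤ 1 - hh p L h := by
  have e1 := pr_notX p (a := 0) (b := L) (S := CE m 0 L ∪ LRE 0 L 0 h) hm
    Finset.subset_union_left
  have e2 := pr_LRc p (a := 0) (b := L) (c := 0) (d := h) (S := CE m 0 L ∪ LRE 0 L 0 h)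
    Finset.subset_union_right
  rw [sub_zero] at e1
  rw [sub_zero, sub_zero] at e2
  rw [← e1, ← e2, ← Pr_not]
  apply Pr_mono (okq h0 h1)
  intro F _ hX hLR
  apply hX
  obtain ⟨y, y', h2, h3, hr⟩ := hLR
  refine ⟨y, y', hr.mono ?_⟩
  rintro ⟨x, z, c⟩ ⟨h4, h5⟩
  have hz : 0 ≤ z ∧ z ≤ h := by
    cases c
    · rw [mem_coe, mem_LRE_false] at h5; omega
    · rw [mem_coe, mem_LRE_true] at h5; omega
  refine ⟨?_, ?_⟩
  · show ((x, z % m, c) : Edg) ∈ F
    rw [Int.emod_eq_of_lt hz.1 (by omega)]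
    exact h4
  · cases c
    · rw [mem_coe, mem_LRE_false] at h5
      rw [mem_StripE_false]; omega
    · rw [mem_coe, mem_LRE_true] at h5
      rw [mem_StripE_true]; omega

end Pool.Agent.X135.TT
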