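import Pool.Agent.H974R2.Chain

/-!
Crossings of vertical strips of the plane by periodic configurations: deterministic facts.
-/

set_option autoImplicit false

namespace Pool.Agent.X135.TT

open H974 Finset

/-- Edges between the columns `a` and `b`. -/
def StripE (a b : ℤ) : Set Edg := {e | a ≤ e.1 ∧ (if e.2.2 then e.1 < b else e.1 ≤ b)}

theorem mem_StripE_true {a b x y : ℤ} : ((x, y, true) : Edg) ∈ StripE a b ↔ a ≤ x ∧ x < b := by
  simp [StripE]

theorem mem_StripE_false {a b x y : ℤ} : ((x, y, false) : Edg) ∈ StripE a b ↔ a ≤ x ∧ x ≤ b := by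
  simp [StripE]

theorem StripE_mono {a b a' b' : ℤ} (h1 : a' ≤ a) (h2 : b ≤ b') : StripE a b ⊆ StripE a' b' := by
  rintro ⟨x, y, _ | _⟩ h
  · rw [mem_StripE_false] at h ⊢; omega
  · rw [mem_StripE_true] at h ⊢; omega

/-- Crossing of the strip between the columns `a` and `b`. -/
def X (a b : ℤ) (G : Set Edg) : Prop := ∃ y y' : ℤ, Reach (G ∩ StripE a b) (a, y) (b, y')

theorem X.mono {a b : ℤ} {G G' : Set Edg} (h : G ∩ StripE a b ⊆ G') (hX : X a b G) : X a b G' := by
  obtain ⟨y, y', hr⟩ := hX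
  have hs : G ∩ StripE a b ⊆ G' ∩ StripE a b := fun e he => ⟨h he, he.2⟩
  exact ⟨y, y', hr.mono hs⟩

/-- Possible steps. -/
theorem adj_cases {G : Set Edg} {w w' : Vtx} (h : Adj G w w') :
    (w'.1 = w.1 ∧ ∃ y, ((w.1, y, false) : Edg) ∈ G ∧ Adj ({e | e = (w.1, y, false)} : Set Edg) w w') ∨
    (w'.1 = w.1 + 1 ∧ ∃ y, ((w.1, y, true) : Edg) ∈ G ∧
      Adj ({e | e = (w.1, y, true)} : Set Edg) w w') ∨
    (w.1 = w'.1 + 1 ∧ ∃ y, ((w'.1, y, true) : Edg) ∈ G ∧
      Adj ({e | e = (w'.1, y, true)} : Set Edg) w w') := by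
  obtain ⟨⟨x, y, b⟩, he, hc⟩ := h
  cases b
  · rcases hc with ⟨h1, h2⟩ | ⟨h1, h2⟩
    · simp only [src_mk, tgt_false] at h1 h2
      subst h1 h2
      exact Or.inl ⟨rfl, y, he, (x, y, false), rfl, Or.inl ⟨rfl, rfl⟩⟩
    · simp only [src_mk, tgt_false] at h1 h2
      subst h1 h2
      exact Or.inl ⟨rfl, y, he, (x, y, false), rfl, Or.inr ⟨rfl, rfl⟩⟩
  · rcases hc with ⟨h1, h2⟩ | ⟨h1, h2⟩
    · simp only [src_mk, tgt_true] at h1 h2
      subst h1 h2
      exact Or.inr (Or.inl ⟨rfl, y, he, (x, y, true), rfl, Or.inl ⟨rfl, rfl⟩⟩)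
    · simp only [src_mk, tgt_true] at h1 h2
      subst h1 h2
      exact Or.inr (Or.inr ⟨rfl, y, he, (x, y, true), rfl, Or.inr ⟨rfl, rfl⟩⟩)

/-- A path from the left of a strip to its right crosses it. -/
theorem sub_strip {G : Set Edg} {a b : ℤ} (hab : a ≤ b) {u v : Vtx} (h : Reach G u v)
    (hu : u.1 ≤ a) (hv : b ≤ v.1) :
    ∃ y1 y2, Reach (G ∩ StripE a b) (a, y1) (b, y2) ∧ Reach G u (a, y1) := by
  have key : ∀ w, Reach G u w →
      (∃ y1 y2, Reach (G ∩ StripE a b) (a, y1) (b, y2) ∧ Reach G u (a, y1)) ∨ w.1 < a ∨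
      (a ≤ w.1 ∧ w.1 ≤ b ∧ ∃ y1, Reach (G ∩ StripE a b) (a, y1) w ∧ Reach G u (a, y1)) := by
    intro w hw
    induction hw with
    | refl =>
      rcases lt_or_eq_of_le hu with h1 | h1
      · exact Or.inr (Or.inl h1)
      · refine Or.inr (Or.inr ⟨h1.ge, by omega, u.2, ?_, ?_⟩)
        · rw [← h1]; exact Reach.refl _ _
        · rw [← h1]; exact Reach.refl _ _
    | @tail w w' hw hs ih =>
      rcases ih with ih | ih | ⟨ih1, ih2, y1, ih3, ih4⟩
      · exact Or.inl ih
      · have hw' : Reach G u w' := hw.trans hs.reach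
        have h1 : w'.1 ≤ a := by
          rcases adj_cases hs with ⟨h1, -⟩ | ⟨h1, -⟩ | ⟨h1, -⟩ <;> omega
        rcases lt_or_eq_of_le h1 with h1 | h1
        · exact Or.inr (Or.inl h1)
        · refine Or.inr (Or.inr ⟨h1.ge, by omega, w'.2, ?_, ?_⟩)
          · rw [← h1]; exact Reach.refl _ _
          · rw [← h1]; exact hw'
      · by_cases h1 : w'.1 < a
        · exact Or.inr (Or.inl h1)
        by_cases h2 : b < w'.1
        · have h3 : w.1 = b := by
            rcases adj_cases hs with ⟨h1, -⟩ | ⟨h1, -⟩ | ⟨h1, -⟩ <;> omega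
          left
          refine ⟨y1, w.2, ?_, ih4⟩
          have e : w = (b, w.2) := by rw [← h3]
          rw [← e]; exact ih3
        · push Not at h1 h2
          refine Or.inr (Or.inr ⟨h1, h2, y1, ?_, ih4⟩)
          refine ih3.trans ?_
          rcases adj_cases hs with ⟨h3, y, h4, h5⟩ | ⟨h3, y, h4, h5⟩ | ⟨h3, y, h4, h5⟩
          · refine (h5.mono ?_).reach
            rintro e rfl
            exact ⟨h4, mem_StripE_false.mpr ⟨ih1, ih2⟩⟩
          · refine (h5.mono ?_).reach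
            rintro e rfl
            exact ⟨h4, mem_StripE_true.mpr ⟨ih1, by omega⟩⟩
          · refine (h5.mono ?_).reach
            rintro e rfl
            exact ⟨h4, mem_StripE_true.mpr ⟨h1, by omega⟩⟩
  rcases key v h with h1 | h1 | ⟨h1, h2, y1, h3, h4⟩
  · exact h1
  · omega
  · have h5 : v.1 = b := by omega
    refine ⟨y1, v.2, ?_, h4⟩
    have e : v = (b, v.2) := by rw [← h5]
    rw [← e]; exact h3

theorem X_of_reach {G : Set Edg} {a b : ℤ} (hab : a ≤ b) {u v : Vtx} (h : Reach G u v)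
    (hu : u.1 ≤ a) (hv : b ≤ v.1) : X a b G := by
  obtain ⟨y1, y2, h1, -⟩ := sub_strip hab h hu hv
  exact ⟨y1, y2, h1⟩

theorem X_sub {G : Set Edg} {a b a' b' : ℤ} (h1 : a ≤ a') (h2 : a' ≤ b') (h3 : b' ≤ b)
    (h : X a b G) : X a' b' G := by
  obtain ⟨y, y', hr⟩ := h
  exact (X_of_reach h2 hr h1 h3).mono (fun e he => he.1.1)

/-- A path visits all intermediate columns. -/
theorem visit {G : Set Edg} {j : ℤ} {u v : Vtx} (h : Reach G u v) (hu : u.1 ≤ j) (hv : j ≤ v.1) :
    ∃ y, Reach G u (j, y) := by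
  obtain ⟨y1, -, -, h2⟩ := sub_strip le_rfl h hu hv
  exact ⟨y1, h2⟩

/-- All the vertical edges of a column are open. -/
def Vcol (j : ℤ) (G : Set Edg) : Prop := ∀ y, ((j, y, false) : Edg) ∈ G

theorem Vcol.conn {G : Set Edg} {j : ℤ} (h : Vcol j G) (y y' : ℤ) : Reach G (j, y) (j, y') := by
  have key : ∀ (n : ℕ) (y : ℤ), Reach G (j, y) (j, y + n) := by
    intro n
    induction n with
    | zero => intro y; simpa using Reach.refl G (j, y)
    | succ n ih =>
      intro y
      refine (ih y).trans ?_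
      have : Adj G (j, y + n) (j, y + (n + 1 : ℕ)) := by
        refine ⟨(j, y + n, false), h _, Or.inl ⟨rfl, ?_⟩⟩
        rw [tgt_false]; push_cast; congr 1; ring
      exact this.reach
  rcases le_total y y' with h1 | h1
  · have := key (y' - y).toNat y
    have e : y + ((y' - y).toNat : ℤ) = y' := by omega
    rwa [e] at this
  · have := key (y - y').toNat y'
    have e : y' + ((y - y').toNat : ℤ) = y := by omega
    rw [e] at this
    exact this.symm

theorem X_glue {G : Set Edg} {a b a' b' j : ℤ} (h1 : a ≤ a') (h2 : a' ≤ j) (h3 : j ≤ b)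
    (h4 : b ≤ b') (hA : X a b G) (hB : X a' b' G) (hj : Vcol j G) : X a b' G := by
  obtain ⟨y, y', hA⟩ := hA
  obtain ⟨z, z', hB⟩ := hB
  obtain ⟨t, ht⟩ := visit hA (show a ≤ j by omega) (show j ≤ b by omega)
  obtain ⟨t', ht'⟩ := visit hB (show a' ≤ j by omega) (show j ≤ b' by omega)
  have hc : Reach (G ∩ StripE a b') (j, t) (j, t') := by
    apply Vcol.conn
    intro y
    exact ⟨hj y, mem_StripE_false.mpr (by omega)⟩
  refine ⟨y, z', ?_⟩
  have s1 : G ∩ StripE a b ⊆ G ∩ StripE a b' :=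
    Set.inter_subset_inter_right _ (StripE_mono le_rfl h4)
  have s2 : G ∩ StripE a' b' ⊆ G ∩ StripE a b' :=
    Set.inter_subset_inter_right _ (StripE_mono h1 le_rfl)
  exact (ht.mono s1).trans (hc.trans ((ht'.symm.mono s2).trans (hB.mono s2)))

/-- A column of closed horizontal edges blocks all crossings. -/
theorem not_X_of_closed {G : Set Edg} {a b x : ℤ} (h1 : a ≤ x) (h2 : x < b)
    (hx : ∀ y, ((x, y, true) : Edg) ∉ G) : ¬ X a b G := by
  rintro ⟨y, y', hr⟩
  have key : ∀ w, Reach (G ∩ StripE a b) (a, y) w → w.1 ≤ x := by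
    intro w hw
    induction hw with
    | refl => exact h1
    | @tail w w' hw hs ih =>
      rcases adj_cases hs with ⟨h3, -⟩ | ⟨h3, y, h4, -⟩ | ⟨h3, -⟩
      · omega
      · by_contra hcon
        have h5 : w.1 = x := by omega
        rw [h5] at h4
        exact hx y h4.1
      · omega
  have := key _ hr
  simp only at this
  omega

/-! ### Translations -/

/-- Translate of a configuration. -/
def sh (s t : ℤ) (G : Set Edg) : Set Edg := {e | (e.1 + s, e.2.1 + t, e.2.2) ∈ G}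

theorem sh_reach {G : Set Edg} (s t : ℤ) {u v : Vtx} :
    Reach (sh s t G) u v ↔ Reach G (u.1 + s, u.2 + t) (v.1 + s, v.2 + t) := by
  have h := (trl s t).reach_iff (F := sh s t G) (u := u) (v := v)
  have e : (trl s t).φ '' (sh s t G) = G := by
    ext ⟨x, y, b⟩
    constructor
    · rintro ⟨⟨x', y', b'⟩, h, he⟩
      rw [trl_φ] at he
      rw [← he]; exact h
    · intro h
      refine ⟨(x - s, y - t, b), ?_, ?_⟩
      · show (x - s + s, y - t + t, b) ∈ G
        simpa using h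
      · rw [trl_φ]; simp
  rw [e] at h
  exact h.symm

theorem sh_StripE (s t a b : ℤ) : sh s t (StripE (a + s) (b + s)) = StripE a b := by
  ext ⟨x, y, _ | _⟩
  · show ((x + s, y + t, false) : Edg) ∈ StripE (a + s) (b + s) ↔ _
    rw [mem_StripE_false, mem_StripE_false]; omega
  · show ((x + s, y + t, true) : Edg) ∈ StripE (a + s) (b + s) ↔ _
    rw [mem_StripE_true, mem_StripE_true]; omega

theorem sh_inter (s t : ℤ) (G G' : Set Edg) : sh s t (G ∩ G') = sh s t G ∩ sh s t G' := rfl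

theorem X_sh {G : Set Edg} {a b : ℤ} (s t : ℤ) : X a b (sh s t G) ↔ X (a + s) (b + s) G := by
  have e : sh s t G ∩ StripE a b = sh s t (G ∩ StripE (a + s) (b + s)) := by
    rw [sh_inter, sh_StripE]
  unfold X
  rw [e]
  constructor
  · rintro ⟨y, y', h⟩
    rw [sh_reach] at h
    exact ⟨_, _, h⟩
  · rintro ⟨y, y', h⟩
    refine ⟨y - t, y' - t, ?_⟩
    rw [sh_reach]
    simpa using h

end Pool.Agent.X135.TT
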