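import Pool.Agent.X135.TT.Est

/-!
Percolation on the torus, in terms of the fundamental domain.
-/

set_option autoImplicit false

namespace Pool.Agent.X135.TT

open H974 Finset

/-- A configuration on the `N × m` torus, lifted to the plane. -/
def per (N m : ℤ) (F : Finset Edg) : Set Edg := {e | ((e.1 % N, e.2.1 % m, e.2.2) : Edg) ∈ F}

/-- The fundamental domain. -/
noncomputable def FD (N m : ℤ) : Finset Edg :=
  Finset.Ico 0 N ×ˢ (Finset.Ico 0 m ×ˢ Finset.univ)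

theorem mem_FD {N m x y : ℤ} {c : Bool} :
    ((x, y, c) : Edg) ∈ FD N m ↔ (0 ≤ x ∧ x < N) ∧ (0 ≤ y ∧ y < m) := by
  simp [FD]

theorem CE_sub_FD {N m a b : ℤ} (ha : 0 ≤ a) (hb : b < N) : CE m a b ⊆ FD N m := by
  rintro ⟨x, y, _ | _⟩ h
  · rw [mem_CE_false] at h; rw [mem_FD]; omega
  · rw [mem_CE_true] at h; rw [mem_FD]; omega

theorem RE_sub_FD {N m a b c d : ℤ} (ha : 0 ≤ a) (hb : b < N) (hc : 0 ≤ c) (hd : d < m) :
    RE a b c d ⊆ FD N m := by
  rintro ⟨x, y, _ | _⟩ h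
  · rw [mem_RE_false] at h; rw [mem_FD]; omega
  · rw [mem_RE_true] at h; rw [mem_FD]; omega

theorem per_strip {N m a b : ℤ} (ha : 0 ≤ a) (hb : b < N) (F : Finset Edg) :
    per N m F ∩ StripE a b = perY m F ∩ StripE a b := by
  ext ⟨x, y, c⟩
  have key : ((x, y, c) : Edg) ∈ StripE a b → x % N = x := by
    intro h
    apply Int.emod_eq_of_lt
    · cases c
      · rw [mem_StripE_false] at h; omega
      · rw [mem_StripE_true] at h; omega
    · cases c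
      · rw [mem_StripE_false] at h; omega
      · rw [mem_StripE_true] at h; omega
  constructor
  · rintro ⟨h1, h2⟩
    refine ⟨?_, h2⟩
    have h3 : ((x % N, y % m, c) : Edg) ∈ F := h1
    rw [key h2] at h3
    exact h3
  · rintro ⟨h1, h2⟩
    refine ⟨?_, h2⟩
    show ((x % N, y % m, c) : Edg) ∈ F
    rw [key h2]
    exact h1

theorem X_per {N m a b : ℤ} (ha : 0 ≤ a) (hb : b < N) (F : Finset Edg) :
    X a b (per N m F) ↔ X a b (perY m F) := by
  unfold X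
  rw [per_strip ha hb]

theorem sh_per (N m q : ℤ) (F : Finset Edg) : sh (q * N) 0 (per N m F) = per N m F := by
  ext ⟨x, y, c⟩
  show ((((x + q * N) % N, (y + 0) % m, c) : Edg)) ∈ F ↔ ((x % N, y % m, c) : Edg) ∈ F
  rw [Int.add_mul_emod_self_right, add_zero]

theorem X_per_shift (N m q a b : ℤ) (F : Finset Edg) :
    X (a + q * N) (b + q * N) (per N m F) ↔ X a b (per N m F) := by
  have h := X_sh (G := per N m F) (a := a) (b := b) (q * N) 0
  rw [sh_per] at h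
  exact h.symm

/-! ### Broken segments -/

/-- All the segments are broken. -/
def QC (m : ℤ) (K ℓ : ℕ) (F : Finset Edg) : Prop :=
  ∀ i < K, ¬ X ((i * ℓ : ℕ) : ℤ) ((i * ℓ : ℕ) + (ℓ : ℤ) - 1) (perY m F)

theorem pr_QC {q : ℝ} {N m : ℤ} (hm : 0 < m) {K ℓ : ℕ} (hKN : ((K * ℓ : ℕ) : ℤ) ≤ N) :
    Pr (fun _ => q) (FD N m) (QC m K ℓ) = (bb q m ((ℓ : ℤ) - 1)) ^ K := by
  have hsub : ∀ i < K, CE m ((i * ℓ : ℕ) : ℤ) ((i * ℓ : ℕ) + (ℓ : ℤ) - 1) ⊆ FD N m := by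
    intro i hi
    apply CE_sub_FD (by positivity)
    have h1 : (i + 1) * ℓ ≤ K * ℓ := Nat.mul_le_mul_right _ (by omega)
    have h2 : (((i + 1) * ℓ : ℕ) : ℤ) ≤ ((K * ℓ : ℕ) : ℤ) := by exact_mod_cast h1
    have e : (((i + 1) * ℓ : ℕ) : ℤ) = ((i * ℓ : ℕ) : ℤ) + ℓ := by push_cast; ring
    omega
  unfold QC
  rw [Pr_blocks (fun i => CE m ((i * ℓ : ℕ) : ℤ) ((i * ℓ : ℕ) + (ℓ : ℤ) - 1))
    (fun i F => ¬ X ((i * ℓ : ℕ) : ℤ) ((i * ℓ : ℕ) + (ℓ : ℤ) - 1) (perY m F)) K hsub]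
  · rw [Finset.prod_congr rfl (g := fun _ => bb q m ((ℓ : ℤ) - 1))]
    · simp
    · intro i hi
      rw [pr_notX q hm (hsub i (Finset.mem_range.mp hi))]
      congr 1
      ring
  · intro i hi j hj hij
    rw [Finset.disjoint_left]
    have key : ∀ i j : ℕ, i < j → (((i * ℓ : ℕ) : ℤ)) + ℓ ≤ ((j * ℓ : ℕ) : ℤ) := by
      intro i j hij
      have h1 : (i + 1) * ℓ ≤ j * ℓ := Nat.mul_le_mul_right _ (by omega)
      have h2 : (((i + 1) * ℓ : ℕ) : ℤ) ≤ ((j * ℓ : ℕ) : ℤ) := by exact_mod_cast h1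
      have e : (((i + 1) * ℓ : ℕ) : ℤ) = ((i * ℓ : ℕ) : ℤ) + ℓ := by push_cast; ring
      omega
    rintro ⟨x, y, _ | _⟩ h1 h2
    · rw [mem_CE_false] at h1 h2
      rcases lt_or_gt_of_ne hij with h | h
      · have := key i j h; omega
      · have := key j i h; omega
    · rw [mem_CE_true] at h1 h2
      rcases lt_or_gt_of_ne hij with h | h
      · have := key i j h; omega
      · have := key j i h; omega
  · intro i _ F
    exact not_congr (X_local hm (Finset.Subset.refl _))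

/-- Every window contains a segment. -/
theorem find_seg {N K ℓ : ℤ} (hK : 1 ≤ K) (hℓ : 1 ≤ ℓ) (h1 : K * ℓ ≤ N) (h2 : N < K * (ℓ + 1))
    (x : ℤ) : ∃ q i : ℤ, 0 ≤ i ∧ i < K ∧ x ≤ i * ℓ + q * N ∧
      i * ℓ + ℓ - 1 + q * N ≤ x + (2 * ℓ + K) := by
  have hN : 0 < N := by nlinarith
  have e := Int.mul_ediv_add_emod x N
  have r0 := Int.emod_nonneg x hN.ne'
  have r1 := Int.emod_lt_of_pos x hN
  set r := x % N with hr
  set q0 := x / N with hq0
  by_cases hc : r ≤ (K - 1) * ℓ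
  · set i := (r + ℓ - 1) / ℓ with hi
    have e2 := Int.mul_ediv_add_emod (r + ℓ - 1) ℓ
    have s0 := Int.emod_nonneg (r + ℓ - 1) (show ℓ ≠ 0 by omega)
    have s1 := Int.emod_lt_of_pos (r + ℓ - 1) (show 0 < ℓ by omega)
    rw [← hi] at e2
    refine ⟨q0, i, ?_, ?_, ?_, ?_⟩
    · rw [hi]; exact Int.ediv_nonneg (by omega) (by omega)
    · by_contra hcon
      push Not at hcon
      have h3 : ℓ * K ≤ ℓ * i := mul_le_mul_of_nonneg_left hcon (by omega)
      have h4 : (K - 1) * ℓ = ℓ * K - ℓ := by ring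
      omega
    · have h5 : i * ℓ = ℓ * i := by ring
      have h6 : q0 * N = N * q0 := by ring
      omega
    · have h5 : i * ℓ = ℓ * i := by ring
      have h6 : q0 * N = N * q0 := by ring
      omega
  · refine ⟨q0 + 1, 0, le_rfl, by omega, ?_, ?_⟩
    · have h6 : (q0 + 1) * N = N * q0 + N := by ring
      rw [h6]; omega
    · have h6 : (q0 + 1) * N = N * q0 + N := by ring
      have h7 : K * (ℓ + 1) = (K - 1) * ℓ + ℓ + K := by ring
      rw [h6]; omega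

theorem QC_bound_right {N m : ℤ} {K ℓ : ℕ} (hK : 1 ≤ K) (hℓ : 1 ≤ ℓ)
    (h1 : (K : ℤ) * ℓ ≤ N) (h2 : N < K * ((ℓ : ℤ) + 1)) {F : Finset Edg} (hQ : QC m K ℓ F)
    {u v : Vtx} (h : Reach (per N m F) u v) : v.1 ≤ u.1 + (2 * ℓ + K) := by
  by_contra hcon
  push Not at hcon
  obtain ⟨q, i, hi0, hiK, h3, h4⟩ := find_seg (by exact_mod_cast hK) (by exact_mod_cast hℓ) h1 h2 u.1
  have hX : X (i * ℓ + q * N) (i * ℓ + ℓ - 1 + q * N) (per N m F) :=
    X_of_reach (by have : (1:ℤ) ≤ ℓ := by exact_mod_cast hℓ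
                   omega) h h3 (by omega)
  rw [X_per_shift] at hX
  have hℓ0 : (0:ℤ) ≤ ℓ := by positivity
  have h5 : i * ℓ ≤ ((K:ℤ) - 1) * ℓ := mul_le_mul_of_nonneg_right (by omega) hℓ0
  have h6 : ((K:ℤ) - 1) * ℓ = K * ℓ - ℓ := by ring
  rw [X_per (mul_nonneg hi0 hℓ0) (by omega)] at hX
  apply hQ i.toNat (by omega)
  have e : ((i.toNat * ℓ : ℕ) : ℤ) = i * ℓ := by
    push_cast
    rw [Int.toNat_of_nonneg hi0]
  rw [e]
  exact hX

theorem QC_bound {N m : ℤ} {K ℓ : ℕ} (hK : 1 ≤ K) (hℓ : 1 ≤ ℓ)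
    (h1 : (K : ℤ) * ℓ ≤ N) (h2 : N < K * ((ℓ : ℤ) + 1)) {F : Finset Edg} (hQ : QC m K ℓ F)
    {u v : Vtx} (h : Reach (per N m F) u v) :
    u.1 - (2 * ℓ + K) ≤ v.1 ∧ v.1 ≤ u.1 + (2 * ℓ + K) := by
  have a1 := QC_bound_right hK hℓ h1 h2 hQ h
  have a2 := QC_bound_right hK hℓ h1 h2 hQ h.symm
  omega

/-! ### The long component -/

/-- The vertex `(2M, 2M)` is joined to two columns at distance `D`. -/
def QH (N m M D : ℤ) (F : Finset Edg) : Prop :=
  ∃ y y' : ℤ, Reach (per N m F) (2 * M, 2 * M) (2 * M, y) ∧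
    Reach (per N m F) (2 * M, 2 * M) (2 * M + D, y')

theorem QH_of {N m M D s : ℤ} (hM : 0 ≤ M) (hs : 2 * M ≤ s) (hsD : s ≤ D)
    (hDN : 2 * M + D < N) (hm : 4 * M < m) {F : Finset Edg}
    (h1 : Loc M s ((trl (-(2 * M)) (-(2 * M))).mp F)) (h2 : X (2 * M) (2 * M + D) (perY m F))
    {j : ℤ} (hj1 : 2 * M ≤ j) (hj2 : j ≤ 2 * M + s) (h3 : Vcol j (perY m F)) :
    QH N m M D F := by
  obtain ⟨x', hx'⟩ := h1
  have hr : Reach (per N m F) (2 * M, 2 * M) (s + 2 * M, x' + 2 * M) := by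
    have h4 := (trl (2 * M) (2 * M)).reach hx'
    have h5 : (trl (2 * M) (2 * M)).φ '' ((↑((trl (-(2 * M)) (-(2 * M))).mp F) : Set Edg) ∩
        ↑(RE (-(2 * M)) s (-(2 * M)) (2 * M))) ⊆ per N m F := by
      rintro _ ⟨⟨x, y, c⟩, ⟨he1, he2⟩, rfl⟩
      rw [trl_φ]
      rw [mem_coe, LSym.mem_mp, trl_φs] at he1
      have he3 : (0 ≤ x + 2 * M ∧ x + 2 * M < N) ∧ (0 ≤ y + 2 * M ∧ y + 2 * M < m) := by
        cases c
        · rw [mem_coe, mem_RE_false] at he2; omega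
        · rw [mem_coe, mem_RE_true] at he2; omega
      show (((x + 2 * M) % N, (y + 2 * M) % m, c) : Edg) ∈ F
      rw [Int.emod_eq_of_lt he3.1.1 he3.1.2, Int.emod_eq_of_lt he3.2.1 he3.2.2]
      simpa using he1
    have h6 := h4.mono h5
    simpa using h6
  have hN : 0 < N := by omega
  have h2' : X (2 * M) (2 * M + D) (per N m F) := (X_per (by omega) hDN F).mpr h2
  obtain ⟨y, y', hX⟩ := h2'
  have hX' : Reach (per N m F) (2 * M, y) (2 * M + D, y') := hX.mono Set.inter_subset_left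
  have hV : ∀ z z' : ℤ, Reach (per N m F) (j, z) (j, z') := by
    intro z z'
    apply Vcol.conn
    intro t
    show ((j % N, t % m, false) : Edg) ∈ F
    rw [Int.emod_eq_of_lt (by omega) (by omega)]
    exact h3 t
  obtain ⟨t, ht⟩ := visit hr (show 2 * M ≤ j by omega) (show j ≤ s + 2 * M by omega)
  obtain ⟨t', ht'⟩ := visit hX' (show 2 * M ≤ j by omega) (show j ≤ 2 * M + D by omega)
  have hc : Reach (per N m F) (2 * M, 2 * M) (2 * M, y) := ht.trans ((hV t t').trans ht'.symm)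
  exact ⟨y, y', hc, hc.trans hX'⟩

theorem pr_QH_gen {p : ℝ} (h0 : 0 ≤ p) (h1 : p ≤ 1) {N M D : ℤ} {m s : ℕ} (hm0 : 0 < m)
    (hM : 0 ≤ M) (hs : 2 * M ≤ s) (hsD : (s : ℤ) ≤ D) (hDN : 2 * M + D < N) (hm : 4 * M < m) :
    Pr (fun _ => p) (RE (-(2 * M)) s (-(2 * M)) (2 * M)) (Loc M s) - bb p m D -
      (1 - p ^ m) ^ (s + 1) ≤ Pr (fun _ => p) (FD N m) (QH N m M D) := by
  have hm' : (0:ℤ) < m := by exact_mod_cast hm0
  set S := FD N m with hS
  have ok := okq h0 h1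
  have e1 : Pr (fun _ => p) S (fun F => Loc M s ((trl (-(2 * M)) (-(2 * M))).mp F)) =
      Pr (fun _ => p) (RE (-(2 * M)) s (-(2 * M)) (2 * M)) (Loc M s) := by
    have a1 : Pr (fun _ => p) S (fun F => Loc M s ((trl (-(2 * M)) (-(2 * M))).mp F)) =
        Pr (fun _ => p) (RE 0 (s + 2 * M) 0 (4 * M))
          (fun F => Loc M s ((trl (-(2 * M)) (-(2 * M))).mp F)) := by
      apply Pr_local (RE_sub_FD le_rfl (by omega) le_rfl hm)
      intro F _
      unfold Loc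
      have e : (trl (-(2 * M)) (-(2 * M))).mp (RE 0 (s + 2 * M) 0 (4 * M)) =
          RE (-(2 * M)) s (-(2 * M)) (2 * M) := by
        rw [trl_RE]; congr 1 <;> ring
      rw [LSym.mp_inter, e, coe_inter_eq (Finset.Subset.refl _)]
    rw [a1]
    have e : RE 0 (s + 2 * M) 0 (4 * M) =
        (trl (2 * M) (2 * M)).mp (RE (-(2 * M)) s (-(2 * M)) (2 * M)) := by
      rw [trl_RE]; congr 1 <;> ring
    rw [e, LSym.pr]
    apply Pr_congr
    intro F _
    have e' : (trl (-(2 * M)) (-(2 * M))).mp ((trl (2 * M) (2 * M)).mp F) = F := trl_trl _ _ _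
    rw [e']
  have e2 := pr_X p (a := 2 * M) (b := 2 * M + D) (S := S) hm' (CE_sub_FD (by omega) hDN)
  have d2 : 2 * M + D - 2 * M = D := by ring
  rw [d2] at e2
  have e3 := pr_noV (q := p) (m := m) (s + 1) (2 * M) (S := S)
    (fun i hi => (VB_sub_CE (a := 2 * M) (b := 2 * M + s) (by omega) (by omega)).trans
      (CE_sub_FD (by omega) (by omega)))
  have i1 := Pr_and_ge ok S (fun F => Loc M s ((trl (-(2 * M)) (-(2 * M))).mp F))
    (fun F => X (2 * M) (2 * M + D) (perY m F))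
  have i2 := Pr_and_ge ok S (fun F => Loc M s ((trl (-(2 * M)) (-(2 * M))).mp F) ∧
    X (2 * M) (2 * M + D) (perY m F)) (fun F => ¬ ∀ i < s + 1, ¬ VB m (2 * M + i) ⊆ F)
  have i3 : Pr (fun _ => p) S (fun F => (Loc M s ((trl (-(2 * M)) (-(2 * M))).mp F) ∧
      X (2 * M) (2 * M + D) (perY m F)) ∧ ¬ ∀ i < s + 1, ¬ VB m (2 * M + i) ⊆ F) ≤
      Pr (fun _ => p) S (QH N m M D) := by
    apply Pr_mono ok
    rintro F _ ⟨⟨k1, k2⟩, k3⟩
    push Not at k3
    obtain ⟨i, hi, k3⟩ := k3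
    rw [← Vcol_iff hm0] at k3
    exact QH_of hM hs hsD hDN hm k1 k2 (j := 2 * M + i) (by omega) (by omega) k3
  rw [Pr_not, e3] at i2
  unfold bb
  linarith

/-- The distance used. -/
noncomputable def Dk (k : ℕ) : ℕ := Nk k / 4 + mk k + 1

theorem sk_ge (k : ℕ) : mk k ≤ sk k := by
  unfold sk
  exact Nat.le_mul_of_pos_right _ (by positivity)

theorem Nk_huge (k : ℕ) : 4 * (4 * sk k + 6) ≤ Nk k := by
  have h1 := Nk_big k
  have hM := Mk_ge k
  have hm := mk_ge k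
  have h5 : 8 ^ (mk k) = 4 ^ (mk k) * 2 ^ (mk k) := by rw [← mul_pow]; norm_num
  have h6 : 4 ^ 32 ≤ 4 ^ (mk k) := Nat.pow_le_pow_right (by norm_num) hm
  have h6' : 128 ≤ 4 ^ (mk k) := le_trans (by norm_num) h6
  have e : sk k = 4 * (2 * Mk k) * 2 ^ (mk k) := by unfold sk mk; ring
  have h7 : 1 ≤ 2 ^ (mk k) := Nat.one_le_two_pow
  rw [h5] at h1
  rw [e]
  set T := 2 ^ (mk k) with hT
  set Hh := 2 * Mk k with hH
  have hH8 : 8 ≤ Hh := by omega
  have h8 : 128 * T * Hh ≤ 4 ^ (mk k) * T * Hh :=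
    Nat.mul_le_mul_right _ (Nat.mul_le_mul_right _ h6')
  nlinarith

theorem pr_QH (k : ℕ) :
    1 / 4 ≤ Pr (fun _ => p0) (FD (Nk k) (mk k)) (QH (Nk k) (mk k) (Mk k) (Dk k)) := by
  have hM := Mk_ge k
  have hm := mk_ge k
  have hsk := sk_ge k
  have hN := Nk_huge k
  have hmM : mk k = 8 * Mk k := rfl
  have hD : Dk k = Nk k / 4 + mk k + 1 := rfl
  have g := pr_QH_gen p0_nonneg p0_le (N := (Nk k : ℤ)) (M := (Mk k : ℤ)) (D := (Dk k : ℤ))
    (m := mk k) (s := sk k) (by omega) (by positivity) (by omega) (by omega) (by omega) (by omega)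
  have he : eps p0 2 ≤ 1 / 100 := by
    have := eps2
    have h2 : (1:ℝ) / 2 ^ 24 ≤ 1 / 100 := by norm_num
    linarith
  have hodd : ¬ Even (2 * k + 1) := by
    rw [Nat.not_even_iff_odd]
    exact ⟨k, rfl⟩
  have hL := pr_Loc p0_nonneg p0_le he hodd (M := (Mk k : ℤ)) (s := (sk k : ℤ)) rfl (by omega)
    (Finset.Subset.refl _)
  have hlf := long_fail k
  have hb := Nk_lt k (L := (Dk k : ℤ)) (by positivity) (by omega)
  have hr := rr_le k
  have hr2 : 1 / ((mk k : ℝ) + 1) ≤ 1 / 33 := by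
    apply one_div_le_one_div_of_le (by norm_num)
    have : (32:ℝ) ≤ mk k := by exact_mod_cast hm
    linarith
  have hp : 162 * (1 - p0) ≤ 1 / 100 := by unfold p0; norm_num
  linarith

end Pool.Agent.X135.TT
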